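import Pool.Agent.Q255.L2.StmM

/-!
# Project L2M of helper255: from Fourier coefficients to intervals
-/

set_option autoImplicit false

namespace Pool.Agent.Q65.L2.Fou

open Filter Topology MeasureTheory Finset
open Pool.Agent.Q255.L2 Pool.Agent.Q255.EP

theorem ee_exp (n : ℤ) (x : ℝ) : ee (n * x) = Complex.exp ((2 * Real.pi * n * Complex.I) * x) := by
  unfold ee
  congr 1
  push_cast
  ring

theorem ee_norm (x : ℝ) : ‖ee x‖ = 1 := by
  unfold ee
  exact Complex.norm_exp_ofReal_mul_I _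

theorem ee_cont : Continuous ee := by
  unfold ee
  fun_prop

theorem ee_add (x y : ℝ) : ee (x + y) = ee x * ee y := by
  unfold ee
  rw [← Complex.exp_add]
  congr 1
  push_cast
  ring

theorem ee_int (n : ℤ) : ee n = 1 := by
  have h := ee_exp n 1
  rw [mul_one, Complex.ofReal_one, mul_one] at h
  rw [h]
  have := Complex.exp_int_mul_two_pi_mul_I n
  rw [← this]
  congr 1
  ring

theorem int_ee (n : ℤ) (hn : n ≠ 0) (a b : ℝ) :
    ∫ x in a..b, ee (n * x) = (ee (n * b) - ee (n * a)) / (2 * Real.pi * n * Complex.I) := by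
  have hn' : (n : ℂ) ≠ 0 := by exact_mod_cast hn
  have hpi : (Real.pi : ℂ) ≠ 0 := by exact_mod_cast Real.pi_ne_zero
  have hc : (2 * Real.pi * n * Complex.I : ℂ) ≠ 0 :=
    mul_ne_zero (mul_ne_zero (mul_ne_zero two_ne_zero hpi) hn') Complex.I_ne_zero
  simp only [ee_exp]
  exact integral_exp_mul_complex hc

/-- the Fourier coefficients of the interval -/
noncomputable def cf (α β : ℝ) (n : ℤ) : ℂ := ∫ x in α..β, ee (((-n : ℤ) : ℝ) * x)

theorem cf_zero (α β : ℝ) : cf α β 0 = ((β - α : ℝ) : ℂ) := by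
  unfold cf
  have h1 : ∀ x : ℝ, ee (((-0 : ℤ) : ℝ) * x) = 1 := by
    intro x
    rw [neg_zero, Int.cast_zero, zero_mul]
    have := ee_int 0
    rwa [Int.cast_zero] at this
  simp only [h1]
  rw [intervalIntegral.integral_const]
  simp

theorem cf_norm (α β : ℝ) (n : ℤ) (hn : n ≠ 0) : ‖cf α β n‖ ≤ 1 / (Real.pi * |(n : ℝ)|) := by
  unfold cf
  rw [int_ee (-n) (neg_ne_zero.2 hn), norm_div]
  have h1 : ‖(2 * Real.pi * ((-n : ℤ) : ℂ) * Complex.I : ℂ)‖ = 2 * Real.pi * |(n : ℝ)| := by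
    rw [norm_mul, norm_mul, norm_mul, Complex.norm_I, mul_one, Complex.norm_real, Int.cast_neg,
      norm_neg, Complex.norm_intCast, Real.norm_eq_abs, abs_of_pos Real.pi_pos]
    norm_num
  rw [h1]
  have h2 : ‖ee (((-n : ℤ) : ℝ) * β) - ee (((-n : ℤ) : ℝ) * α)‖ ≤ 2 := by
    refine (norm_sub_le _ _).trans ?_
    rw [ee_norm, ee_norm]
    norm_num
  have h3 : 0 < |(n : ℝ)| := abs_pos.2 (by exact_mod_cast hn)
  have h4 : 0 < Real.pi := Real.pi_pos
  rw [div_le_div_iff₀ (by positivity) (by positivity)]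
  nlinarith [mul_pos h4 h3]

/-- the partial sum of the Fourier series -/
noncomputable def ps (α β : ℝ) (H : ℕ) (x : ℝ) : ℂ :=
  ∑ h ∈ Icc (-(H : ℤ)) H, cf α β h * ee (h * x)

theorem ps_cont (α β : ℝ) (H : ℕ) : Continuous (ps α β H) := by
  unfold ps
  refine continuous_finsetSum _ fun h _ => continuous_const.mul ?_
  exact ee_cont.comp (continuous_const.mul continuous_id)

/-- the error -/
noncomputable def er (α β : ℝ) (H : ℕ) (x : ℝ) : ℂ :=
  (Set.Ioc α β).indicator (fun _ => (1 : ℂ)) x - ps α β H x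

theorem er_meas (α β : ℝ) (H : ℕ) : Measurable (er α β H) := by
  unfold er
  exact (measurable_const.indicator measurableSet_Ioc).sub (ps_cont α β H).measurable

theorem er_bdd (α β : ℝ) (H : ℕ) (x : ℝ) :
    ‖er α β H x‖ ≤ 1 + ∑ h ∈ Icc (-(H : ℤ)) H, ‖cf α β h‖ := by
  unfold er ps
  refine (norm_sub_le _ _).trans (add_le_add ?_ ?_)
  · rw [Set.indicator_apply]
    split_ifs <;> simp
  · refine (norm_sum_le _ _).trans (Finset.sum_le_sum fun h _ => ?_)
    rw [norm_mul, ee_norm, mul_one]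

/-- integrals of products with the indicator function -/
theorem int_ind (α β : ℝ) (h0 : 0 ≤ α) (h1 : α ≤ β) (h2 : β ≤ 1) (f : ℝ → ℂ) :
    ∫ x in (0 : ℝ)..1, f x * (Set.Ioc α β).indicator (fun _ => (1 : ℂ)) x = ∫ x in α..β, f x := by
  rw [intervalIntegral.integral_of_le zero_le_one, intervalIntegral.integral_of_le h1]
  have h3 : (fun x => f x * (Set.Ioc α β).indicator (fun _ => (1 : ℂ)) x) =
      (Set.Ioc α β).indicator f := by
    funext x
    rw [Set.indicator_apply, Set.indicator_apply]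
    split_ifs <;> simp
  rw [h3, setIntegral_indicator measurableSet_Ioc]
  congr 2
  exact Set.inter_eq_right.2 (Set.Ioc_subset_Ioc h0 h2)

theorem bdd_int (f g : ℝ → ℂ) (hf : Continuous f) (hg : Measurable g) (M : ℝ)
    (hM : ∀ x, ‖g x‖ ≤ M) (a b : ℝ) : IntervalIntegrable (fun x => f x * g x) volume a b := by
  have h1 : IntervalIntegrable g volume a b := by
    refine (intervalIntegrable_const (c := M)).mono_fun hg.aestronglyMeasurable ?_
    refine Filter.Eventually.of_forall fun x => ?_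
    show ‖g x‖ ≤ ‖M‖
    exact (hM x).trans (le_abs_self M)
  exact h1.continuousOn_mul hf.continuousOn

theorem ind_int (α β : ℝ) (f : ℝ → ℂ) (hf : Continuous f) (a b : ℝ) :
    IntervalIntegrable (fun x => f x * (Set.Ioc α β).indicator (fun _ => (1 : ℂ)) x) volume a b := by
  refine bdd_int f _ hf (measurable_const.indicator measurableSet_Ioc) 1 (fun x => ?_) a b
  rw [Set.indicator_apply]
  split_ifs <;> simp

theorem ps_mul_int (α β : ℝ) (H : ℕ) (f : ℝ → ℂ) (hf : Continuous f) :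
    ∫ x in (0 : ℝ)..1, f x * ps α β H x =
      ∑ h ∈ Icc (-(H : ℤ)) H, cf α β h * ∫ x in (0 : ℝ)..1, f x * ee (h * x) := by
  have h1 : ∀ x, f x * ps α β H x = ∑ h ∈ Icc (-(H : ℤ)) H, cf α β h * (f x * ee (h * x)) := by
    intro x
    unfold ps
    rw [Finset.mul_sum]
    refine Finset.sum_congr rfl fun h _ => ?_
    ring
  simp only [h1]
  rw [intervalIntegral.integral_finsetSum]
  · refine Finset.sum_congr rfl fun h _ => ?_
    exact intervalIntegral.integral_const_mul _ _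
  · intro h _
    refine Continuous.intervalIntegrable ?_ _ _
    exact continuous_const.mul (hf.mul (ee_cont.comp (continuous_const.mul continuous_id)))

theorem er_mul_int (α β : ℝ) (h0 : 0 ≤ α) (h1 : α ≤ β) (h2 : β ≤ 1) (H : ℕ) (f : ℝ → ℂ)
    (hf : Continuous f) : ∫ x in (0 : ℝ)..1, f x * er α β H x = (∫ x in α..β, f x) -
      ∑ h ∈ Icc (-(H : ℤ)) H, cf α β h * ∫ x in (0 : ℝ)..1, f x * ee (h * x) := by
  unfold er
  simp only [mul_sub]
  have i2 : IntervalIntegrable (fun x => f x * ps α β H x) volume 0 1 :=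
    (hf.mul (ps_cont α β H)).intervalIntegrable _ _
  rw [intervalIntegral.integral_sub (ind_int α β f hf 0 1) i2, int_ind α β h0 h1 h2,
    ps_mul_int α β H f hf]

theorem int_ee_mul (n h : ℤ) : ∫ x in (0 : ℝ)..1, ee (((-n : ℤ) : ℝ) * x) * ee (h * x) =
    if h = n then 1 else 0 := by
  have h1 : ∀ x : ℝ, ee (((-n : ℤ) : ℝ) * x) * ee (h * x) = ee (((h - n : ℤ) : ℝ) * x) := by
    intro x
    rw [← ee_add]
    congr 1
    push_cast
    ring
  simp only [h1]
  split_ifs with hh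
  · rw [hh, sub_self]
    have h2 : ∀ x : ℝ, ee (((0 : ℤ) : ℝ) * x) = 1 := by
      intro x
      rw [Int.cast_zero, zero_mul]
      have := ee_int 0
      rwa [Int.cast_zero] at this
    simp only [h2]
    simp
  · rw [int_ee (h - n) (sub_ne_zero.2 hh), mul_one, mul_zero, ee_int]
    have := ee_int 0
    rw [Int.cast_zero] at this
    rw [this, sub_self, zero_div]

/-- the Fourier coefficients of the error -/
theorem er_coef (α β : ℝ) (h0 : 0 ≤ α) (h1 : α ≤ β) (h2 : β ≤ 1) (H : ℕ) (n : ℤ) :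
    fourierCoeffOn zero_lt_one (er α β H) n = if |n| ≤ H then 0 else cf α β n := by
  rw [fourierCoeffOn_eq_integral]
  have h3 : ∀ x : ℝ, fourier (-n) (x : AddCircle ((1 : ℝ) - 0)) • er α β H x =
      ee (((-n : ℤ) : ℝ) * x) * er α β H x := by
    intro x
    rw [smul_eq_mul, fourier_coe_apply, ee_exp]
    congr 2
    push_cast
    ring
  simp only [h3]
  rw [er_mul_int α β h0 h1 h2 H (fun x => ee (((-n : ℤ) : ℝ) * x))
    (ee_cont.comp (continuous_const.mul continuous_id))]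
  simp only [int_ee_mul]
  have h4 : ∫ x in α..β, ee (((-n : ℤ) : ℝ) * x) = cf α β n := rfl
  rw [h4, sub_zero, div_one, one_smul]
  simp only [mul_ite, mul_one, mul_zero]
  rw [Finset.sum_ite_eq' (Icc (-(H : ℤ)) H) n]
  have h5 : n ∈ Icc (-(H : ℤ)) H ↔ |n| ≤ H := by rw [mem_Icc, abs_le]
  by_cases h6 : |n| ≤ H
  · rw [if_pos (h5.2 h6), if_pos h6, sub_self]
  · rw [if_neg fun h => h6 (h5.1 h), if_neg h6, sub_zero]

theorem tail_nat (H N : ℕ) (hH : 1 ≤ H) :
    ∑ n ∈ Ioc H N, (fun k : ℕ => 1 / (k : ℝ) ^ 2) n ≤ 1 / (H : ℝ) := by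
  rcases le_or_gt N H with h | h
  · rw [Ioc_eq_empty (by omega), sum_empty]
    positivity
  · have key : ∀ m : ℕ, H ≤ m →
        ∑ n ∈ Ioc H m, (fun k : ℕ => 1 / (k : ℝ) ^ 2) n ≤ 1 / (H : ℝ) - 1 / (m : ℝ) := by
      intro m hm
      induction m, hm using Nat.le_induction with
      | base => simp
      | succ m hm ih =>
        rw [Finset.sum_Ioc_succ_top hm]
        have hm0 : (0 : ℝ) < m := by exact_mod_cast (by omega : 0 < m)
        have h1 : 1 / ((m + 1 : ℕ) : ℝ) ^ 2 ≤ 1 / (m : ℝ) - 1 / ((m + 1 : ℕ) : ℝ) := by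
          push_cast
          rw [div_sub_div _ _ hm0.ne' (by positivity), div_le_div_iff₀ (by positivity) (by positivity)]
          nlinarith
        have h2 : ∑ k ∈ Ioc H m, 1 / (k : ℝ) ^ 2 ≤ 1 / (H : ℝ) - 1 / (m : ℝ) := ih
        linarith
    have h1 := key N h.le
    have h2 : (0 : ℝ) ≤ 1 / N := by positivity
    linarith

theorem tail_int (H : ℕ) (hH : 1 ≤ H) (s : Finset ℤ) :
    ∑ n ∈ s, (if |n| ≤ (H : ℤ) then (0 : ℝ) else 1 / (n : ℝ) ^ 2) ≤ 2 / H := by
  classical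
  rw [← Finset.sum_filter_add_sum_filter_not s (fun n => |n| ≤ (H : ℤ))]
  have h1 : ∑ n ∈ s.filter (fun n => |n| ≤ (H : ℤ)),
      (if |n| ≤ (H : ℤ) then (0 : ℝ) else 1 / (n : ℝ) ^ 2) = 0 := by
    refine sum_eq_zero fun n hn => ?_
    rw [if_pos (mem_filter.1 hn).2]
  rw [h1, zero_add]
  set t := s.filter (fun n => ¬ |n| ≤ (H : ℤ)) with ht
  have h2 : ∑ n ∈ t, (if |n| ≤ (H : ℤ) then (0 : ℝ) else 1 / (n : ℝ) ^ 2) =
      ∑ n ∈ t, 1 / (n.natAbs : ℝ) ^ 2 := by
    refine sum_congr rfl fun n hn => ?_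
    rw [if_neg (mem_filter.1 hn).2]
    rw [Nat.cast_natAbs, Int.cast_abs, sq_abs]
  rw [h2]
  have hmaps : ∀ n ∈ t, n.natAbs ∈ Ioc H (s.sup Int.natAbs) := by
    intro n hn
    have h3 := (mem_filter.1 hn).2
    rw [mem_Ioc]
    refine ⟨?_, Finset.le_sup (f := Int.natAbs) (mem_filter.1 hn).1⟩
    rw [Int.abs_eq_natAbs] at h3
    omega
  rw [← Finset.sum_fiberwise_of_maps_to hmaps]
  have h3 : ∀ m ∈ Ioc H (s.sup Int.natAbs),
      ∑ n ∈ t.filter (fun n => n.natAbs = m), 1 / (n.natAbs : ℝ) ^ 2 ≤ 2 * (1 / (m : ℝ) ^ 2) := by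
    intro m _
    have h4 : ∑ n ∈ t.filter (fun n => n.natAbs = m), 1 / (n.natAbs : ℝ) ^ 2 =
        ∑ n ∈ t.filter (fun n => n.natAbs = m), 1 / (m : ℝ) ^ 2 := by
      refine sum_congr rfl fun n hn => ?_
      rw [(mem_filter.1 hn).2]
    rw [h4, sum_const, nsmul_eq_mul]
    refine mul_le_mul_of_nonneg_right ?_ (by positivity)
    have h5 : t.filter (fun n => n.natAbs = m) ⊆ {(m : ℤ), -(m : ℤ)} := by
      intro n hn
      have h6 := (mem_filter.1 hn).2
      rw [mem_insert, mem_singleton]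
      omega
    have h6 : (t.filter (fun n => n.natAbs = m)).card ≤ 2 := (card_le_card h5).trans card_le_two
    exact_mod_cast h6
  refine (sum_le_sum h3).trans ?_
  rw [← mul_sum]
  have h4 : ∑ i ∈ Ioc H (s.sup Int.natAbs), 1 / (i : ℝ) ^ 2 ≤ 1 / (H : ℝ) :=
    tail_nat H (s.sup Int.natAbs) hH
  have h5 : (2 : ℝ) / H = 2 * (1 / H) := by ring
  rw [h5]
  linarith

theorem er_sq (α β : ℝ) (h0 : 0 ≤ α) (h1 : α ≤ β) (h2 : β ≤ 1) (H : ℕ) (hH : 1 ≤ H) :
    ∫ x in (0 : ℝ)..1, ‖er α β H x‖ ^ 2 ≤ 1 / H := by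
  have hL : MemLp (er α β H) 2 (volume.restrict (Set.Ioc 0 1)) :=
    MemLp.of_bound (er_meas α β H).aestronglyMeasurable _
      (Filter.Eventually.of_forall (er_bdd α β H))
  have hs := hasSum_sq_fourierCoeffOn zero_lt_one hL
  rw [sub_zero, inv_one, one_smul] at hs
  refine hasSum_le_of_sum_le hs fun s => ?_
  have h3 : ∀ n ∈ s, ‖fourierCoeffOn zero_lt_one (er α β H) n‖ ^ 2 ≤
      (1 / Real.pi ^ 2) * (if |n| ≤ (H : ℤ) then (0 : ℝ) else 1 / (n : ℝ) ^ 2) := by
    intro n _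
    rw [er_coef α β h0 h1 h2 H n]
    split_ifs with h
    · simp
    · have hn : n ≠ 0 := by
        rintro rfl
        apply h
        simp
      have h4 := cf_norm α β n hn
      have h5 : (1 / (Real.pi * |(n : ℝ)|)) ^ 2 = (1 / Real.pi ^ 2) * (1 / (n : ℝ) ^ 2) := by
        rw [div_pow, mul_pow, sq_abs, one_pow, div_mul_div_comm, one_mul]
      rw [← h5]
      exact pow_le_pow_left₀ (norm_nonneg _) h4 2
  refine (Finset.sum_le_sum h3).trans ?_
  rw [← Finset.mul_sum]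
  have h4 := tail_int H hH s
  have hH0 : (0 : ℝ) < H := by exact_mod_cast hH
  have h5 : (1 / Real.pi ^ 2) * (2 / (H : ℝ)) ≤ 1 / H := by
    rw [div_mul_div_comm, one_mul, div_le_div_iff₀ (by positivity) hH0]
    have h6 := Real.pi_gt_three
    have h7 : (2 : ℝ) ≤ Real.pi ^ 2 := by nlinarith
    have h8 := mul_le_mul_of_nonneg_right h7 hH0.le
    linarith
  exact (mul_le_mul_of_nonneg_left h4 (by positivity)).trans h5

theorem er_L1 (α β : ℝ) (h0 : 0 ≤ α) (h1 : α ≤ β) (h2 : β ≤ 1) (H : ℕ) (hH : 1 ≤ H) :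
    ∫ x in (0 : ℝ)..1, ‖er α β H x‖ ≤ 1 / √(H : ℝ) := by
  have hH0 : (0 : ℝ) < H := by exact_mod_cast hH
  have hs : 0 < √(H : ℝ) := Real.sqrt_pos.2 hH0
  have hss : √(H : ℝ) * √(H : ℝ) = H := Real.mul_self_sqrt hH0.le
  have hi2 : IntervalIntegrable (fun x => ‖er α β H x‖ ^ 2) volume 0 1 := by
    refine (intervalIntegrable_const (c := (1 + ∑ h ∈ Icc (-(H : ℤ)) H, ‖cf α β h‖) ^ 2)).mono_fun
      ((er_meas α β H).norm.pow_const 2).aestronglyMeasurable ?_
    refine Filter.Eventually.of_forall fun x => ?_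
    show ‖‖er α β H x‖ ^ 2‖ ≤ ‖(1 + ∑ h ∈ Icc (-(H : ℤ)) H, ‖cf α β h‖) ^ 2‖
    rw [Real.norm_of_nonneg (by positivity), Real.norm_of_nonneg (by positivity)]
    exact pow_le_pow_left₀ (norm_nonneg _) (er_bdd α β H x) 2
  have hi1 : IntervalIntegrable (fun x => ‖er α β H x‖) volume 0 1 := by
    refine (intervalIntegrable_const (c := (1 + ∑ h ∈ Icc (-(H : ℤ)) H, ‖cf α β h‖))).mono_fun
      (er_meas α β H).norm.aestronglyMeasurable ?_
    refine Filter.Eventually.of_forall fun x => ?_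
    show ‖‖er α β H x‖‖ ≤ ‖(1 + ∑ h ∈ Icc (-(H : ℤ)) H, ‖cf α β h‖)‖
    rw [norm_norm, Real.norm_of_nonneg (by positivity)]
    exact er_bdd α β H x
  have h3 : ∀ x ∈ Set.Icc (0 : ℝ) 1, ‖er α β H x‖ ≤
      1 / (2 * √(H : ℝ)) + √(H : ℝ) / 2 * ‖er α β H x‖ ^ 2 := by
    intro x _
    have h4 : 1 / (2 * √(H : ℝ)) + √(H : ℝ) / 2 * ‖er α β H x‖ ^ 2 - ‖er α β H x‖ =
        (1 - √(H : ℝ) * ‖er α β H x‖) ^ 2 / (2 * √(H : ℝ)) := by
      field_simp
      ring
    have h5 : 0 ≤ (1 - √(H : ℝ) * ‖er α β H x‖) ^ 2 / (2 * √(H : ℝ)) := by positivity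
    linarith
  have h4 := intervalIntegral.integral_mono_on zero_le_one hi1
    (intervalIntegrable_const.add (hi2.const_mul (√(H : ℝ) / 2))) h3
  refine h4.trans ?_
  rw [intervalIntegral.integral_add intervalIntegrable_const (hi2.const_mul _),
    intervalIntegral.integral_const_mul, intervalIntegral.integral_const]
  have h5 := er_sq α β h0 h1 h2 H hH
  have h6 : √(H : ℝ) / 2 * ∫ x in (0 : ℝ)..1, ‖er α β H x‖ ^ 2 ≤ √(H : ℝ) / 2 * (1 / H) :=
    mul_le_mul_of_nonneg_left h5 (by positivity)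
  have h7 : √(H : ℝ) / 2 * (1 / H) = 1 / (2 * √(H : ℝ)) := by
    rw [div_mul_div_comm, mul_one, div_eq_div_iff (by positivity) (by positivity)]
    linarith
  have h8 : 1 / √(H : ℝ) = 1 / (2 * √(H : ℝ)) + 1 / (2 * √(H : ℝ)) := by
    field_simp
    norm_num
  rw [h8, sub_zero, one_smul]
  linarith

theorem harm_int (H : ℕ) : ∑ h ∈ (Icc (-(H : ℤ)) H).erase 0, 1 / |(h : ℝ)| ≤ 2 * (1 + Real.log H) := by
  classical
  have h2 : ∑ h ∈ (Icc (-(H : ℤ)) H).erase 0, 1 / |(h : ℝ)| =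
      ∑ h ∈ (Icc (-(H : ℤ)) H).erase 0, 1 / (h.natAbs : ℝ) := by
    refine sum_congr rfl fun n _ => ?_
    rw [Nat.cast_natAbs, Int.cast_abs]
  rw [h2]
  have hmaps : ∀ n ∈ (Icc (-(H : ℤ)) H).erase 0, n.natAbs ∈ Icc 1 H := by
    intro n hn
    rw [mem_erase, mem_Icc] at hn
    rw [mem_Icc]
    omega
  rw [← Finset.sum_fiberwise_of_maps_to hmaps]
  have h3 : ∀ m ∈ Icc 1 H, ∑ n ∈ ((Icc (-(H : ℤ)) H).erase 0).filter (fun n => n.natAbs = m),
      1 / (n.natAbs : ℝ) ≤ 2 * (m : ℝ)⁻¹ := by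
    intro m _
    have h4 : ∑ n ∈ ((Icc (-(H : ℤ)) H).erase 0).filter (fun n => n.natAbs = m),
        1 / (n.natAbs : ℝ) =
        ∑ n ∈ ((Icc (-(H : ℤ)) H).erase 0).filter (fun n => n.natAbs = m), (m : ℝ)⁻¹ := by
      refine sum_congr rfl fun n hn => ?_
      rw [(mem_filter.1 hn).2, one_div]
    rw [h4, sum_const, nsmul_eq_mul]
    refine mul_le_mul_of_nonneg_right ?_ (by positivity)
    have h5 : ((Icc (-(H : ℤ)) H).erase 0).filter (fun n => n.natAbs = m) ⊆
        {(m : ℤ), -(m : ℤ)} := by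
      intro n hn
      have h6 := (mem_filter.1 hn).2
      rw [mem_insert, mem_singleton]
      omega
    have h6 : (((Icc (-(H : ℤ)) H).erase 0).filter (fun n => n.natAbs = m)).card ≤ 2 :=
      (card_le_card h5).trans card_le_two
    exact_mod_cast h6
  refine (sum_le_sum h3).trans ?_
  rw [← mul_sum]
  have h4 := harmonic_le_one_add_log H
  rw [harmonic_eq_sum_Icc] at h4
  push_cast at h4
  linarith

theorem fou : S_FOU := by
  refine ⟨1, zero_le_one, ?_⟩
  intro g G δ α β H hg hG hH h0 h1 h2 hδ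
  have hH0 : (0 : ℝ) < H := by exact_mod_cast hH
  have hG0 : 0 ≤ G := (abs_nonneg _).trans (hG 0)
  have hδ0 : 0 ≤ δ := (norm_nonneg _).trans (hδ 1 one_ne_zero (by simpa using hH))
  have hgc : Continuous fun x => (g x : ℂ) := Complex.continuous_ofReal.comp hg
  have h3 := er_mul_int α β h0 h1 h2 H _ hgc
  have h4 : ‖∫ x in (0 : ℝ)..1, (g x : ℂ) * er α β H x‖ ≤ G * (1 / √(H : ℝ)) := by
    have hi1 : IntervalIntegrable (fun x => ‖er α β H x‖) volume 0 1 := by
      refine (intervalIntegrable_const (c := (1 + ∑ h ∈ Icc (-(H : ℤ)) H, ‖cf α β h‖))).mono_fun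
        (er_meas α β H).norm.aestronglyMeasurable ?_
      refine Filter.Eventually.of_forall fun x => ?_
      show ‖‖er α β H x‖‖ ≤ ‖(1 + ∑ h ∈ Icc (-(H : ℤ)) H, ‖cf α β h‖)‖
      rw [norm_norm, Real.norm_of_nonneg (by positivity)]
      exact er_bdd α β H x
    have h5 : ‖∫ x in (0 : ℝ)..1, (g x : ℂ) * er α β H x‖ ≤
        ∫ x in (0 : ℝ)..1, G * ‖er α β H x‖ := by
      refine intervalIntegral.norm_integral_le_of_norm_le zero_le_one ?_ (hi1.const_mul G)
      refine Filter.Eventually.of_forall fun x _ => ?_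
      rw [norm_mul, Complex.norm_real]
      exact mul_le_mul_of_nonneg_right (hG x) (norm_nonneg _)
    refine h5.trans ?_
    rw [intervalIntegral.integral_const_mul]
    exact mul_le_mul_of_nonneg_left (er_L1 α β h0 h1 h2 H hH) hG0
  have h0m : (0 : ℤ) ∈ Icc (-(H : ℤ)) H := by
    rw [mem_Icc]
    omega
  rw [← Finset.add_sum_erase _ _ h0m, cf_zero] at h3
  have h5 : ∫ x in (0 : ℝ)..1, (g x : ℂ) * ee (((0 : ℤ) : ℝ) * x) =
      ((∫ x in (0 : ℝ)..1, g x : ℝ) : ℂ) := by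
    rw [← intervalIntegral.integral_ofReal]
    refine intervalIntegral.integral_congr fun x _ => ?_
    show (g x : ℂ) * ee (((0 : ℤ) : ℝ) * x) = (g x : ℂ)
    rw [Int.cast_zero, zero_mul]
    have := ee_int 0
    rw [Int.cast_zero] at this
    rw [this, mul_one]
  rw [h5] at h3
  have h6 : ‖∑ h ∈ (Icc (-(H : ℤ)) H).erase 0,
      cf α β h * ∫ x in (0 : ℝ)..1, (g x : ℂ) * ee (h * x)‖ ≤ δ * (1 + Real.log H) := by
    refine (norm_sum_le _ _).trans ?_
    have h7 : ∀ h ∈ (Icc (-(H : ℤ)) H).erase 0,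
        ‖cf α β h * ∫ x in (0 : ℝ)..1, (g x : ℂ) * ee (h * x)‖ ≤
          (δ / Real.pi) * (1 / |(h : ℝ)|) := by
      intro h hh
      rw [mem_erase, mem_Icc] at hh
      rw [norm_mul]
      have h8 := cf_norm α β h hh.1
      have h9 := hδ (-h) (neg_ne_zero.2 hh.1) (by rw [abs_neg, abs_le]; exact hh.2)
      have h10 : ∀ x : ℝ, ee (-(((-h : ℤ) : ℝ) * x)) = ee (h * x) := by
        intro x
        congr 1
        push_cast
        ring
      simp only [h10] at h9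
      calc ‖cf α β h‖ * ‖∫ x in (0 : ℝ)..1, (g x : ℂ) * ee (h * x)‖ ≤
            1 / (Real.pi * |(h : ℝ)|) * δ := mul_le_mul h8 h9 (norm_nonneg _) (by
              have := Real.pi_pos
              positivity)
        _ = (δ / Real.pi) * (1 / |(h : ℝ)|) := by
            rw [one_div, mul_inv]
            ring
    refine (Finset.sum_le_sum h7).trans ?_
    rw [← Finset.mul_sum]
    have h8 := harm_int H
    have h9 : 0 ≤ Real.log H := Real.log_nonneg (by exact_mod_cast hH)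
    have h10 : δ / Real.pi ≤ δ / 2 := by
      refine div_le_div_of_nonneg_left hδ0 (by norm_num) ?_
      linarith [Real.pi_gt_three]
    calc δ / Real.pi * ∑ h ∈ (Icc (-(H : ℤ)) H).erase 0, 1 / |(h : ℝ)| ≤
          δ / Real.pi * (2 * (1 + Real.log H)) := mul_le_mul_of_nonneg_left h8 (by
            have := Real.pi_pos
            positivity)
      _ ≤ δ / 2 * (2 * (1 + Real.log H)) := mul_le_mul_of_nonneg_right h10 (by linarith)
      _ = δ * (1 + Real.log H) := by ring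
  have h7 : (((∫ x in α..β, g x) - (β - α) * ∫ x in (0 : ℝ)..1, g x : ℝ) : ℂ) =
      (∫ x in (0 : ℝ)..1, (g x : ℂ) * er α β H x) + ∑ h ∈ (Icc (-(H : ℤ)) H).erase 0,
      cf α β h * ∫ x in (0 : ℝ)..1, (g x : ℂ) * ee (h * x) := by
    rw [h3]
    push_cast
    rw [← intervalIntegral.integral_ofReal]
    ring
  have h8 : |(∫ x in α..β, g x) - (β - α) * ∫ x in (0 : ℝ)..1, g x| =
      ‖(((∫ x in α..β, g x) - (β - α) * ∫ x in (0 : ℝ)..1, g x : ℝ) : ℂ)‖ := by
    rw [Complex.norm_real, Real.norm_eq_abs]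
  rw [h8, h7]
  refine (norm_add_le _ _).trans ?_
  have h9 : G * (1 / √(H : ℝ)) = G / √(H : ℝ) := by ring
  rw [h9] at h4
  linarith

end Pool.Agent.Q65.L2.Fou

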