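import Pool.Agent.Q255.L2.StmK

/-!
# The sup norm of random twists: the terms of the expansion
-/

set_option autoImplicit false

namespace Pool.Agent.Q65.L2

open Filter Topology MeasureTheory Finset
open Pool.Agent.Q255.IC Pool.Agent.Q255.IR Pool.Agent.Q255.EP Pool.Agent.Q255.L2

/-- the shift: cosine or sine -/
noncomputable def sh (b : Bool) : ℝ := if b then 0 else Real.pi / 2

/-- one term of the expansion -/
noncomputable def tm (T : ℝ) (a : ℕ → ℝ) (b : Bool) (x y : ℝ) (n : ℕ) : ℝ :=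
  Real.exp (Real.pi * T / 2) * √y *
    (a n * KB T (2 * Real.pi * n * y) * Real.cos (2 * Real.pi * n * x - sh b))

theorem amp (h2 : S_KBB) : ∃ C : ℝ, 0 ≤ C ∧ ∀ T : ℝ, 1 ≤ T →
    (∀ u : ℝ, 0 < u → Real.exp (Real.pi * T / 2) * |KB T u| ≤ C / √(1 + |T - u|)) ∧
    ∀ u u' : ℝ, 0 < u → 0 < u' →
      Real.exp (Real.pi * T / 2) * |KB T u - KB T u'| ≤ C * √T * |Real.log u - Real.log u'| := by
  obtain ⟨C, hC, h⟩ := h2
  refine ⟨max (√C) C, le_max_of_le_right hC, fun T hT => ⟨fun u hu => ?_, fun u u' hu hu' => ?_⟩⟩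
  · have h1 := (h T hT).1 u hu
    have h3 : (Real.exp (Real.pi * T / 2) * |KB T u|) ^ 2 ≤ C / (1 + |T - u|) := by
      rw [mul_pow, sq_abs, ← Real.exp_nat_mul]
      refine le_trans (le_of_eq ?_) h1
      congr 2
      push_cast
      ring
    have h4 : Real.exp (Real.pi * T / 2) * |KB T u| ≤ √(C / (1 + |T - u|)) :=
      Real.le_sqrt_of_sq_le h3
    rw [Real.sqrt_div hC] at h4
    exact h4.trans (div_le_div_of_nonneg_right (le_max_left _ _) (Real.sqrt_nonneg _))
  · refine ((h T hT).2 u u' hu hu').trans ?_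
    exact mul_le_mul_of_nonneg_right (mul_le_mul_of_nonneg_right (le_max_right _ _)
      (Real.sqrt_nonneg _)) (abs_nonneg _)

theorem tm_bd (C T : ℝ)
    (h : ∀ u : ℝ, 0 < u → Real.exp (Real.pi * T / 2) * |KB T u| ≤ C / √(1 + |T - u|))
    (a : ℕ → ℝ) (b : Bool) (x y Y : ℝ) (hy : 0 < y) (hyY : y ≤ Y) (n : ℕ) (hn : 1 ≤ n) :
    |tm T a b x y n| ≤ √Y * |a n| * C / √(1 + |T - 2 * Real.pi * n * y|) := by
  have hn1 : (1 : ℝ) ≤ n := by exact_mod_cast hn
  have hu : 0 < 2 * Real.pi * n * y := by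
    have := Real.pi_pos
    positivity
  unfold tm
  rw [abs_mul, abs_mul, abs_mul, abs_mul, Real.abs_exp, abs_of_nonneg (Real.sqrt_nonneg y)]
  have h1 := h _ hu
  have h2 : √y ≤ √Y := Real.sqrt_le_sqrt hyY
  calc Real.exp (Real.pi * T / 2) * √y * (|a n| * |KB T (2 * Real.pi * n * y)| *
        |Real.cos (2 * Real.pi * n * x - sh b)|)
      ≤ Real.exp (Real.pi * T / 2) * √y * (|a n| * |KB T (2 * Real.pi * n * y)| * 1) := by
        refine mul_le_mul_of_nonneg_left (mul_le_mul_of_nonneg_left (Real.abs_cos_le_one _)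
          (by positivity)) (by positivity)
    _ = √y * |a n| * (Real.exp (Real.pi * T / 2) * |KB T (2 * Real.pi * n * y)|) := by ring
    _ ≤ √Y * |a n| * (C / √(1 + |T - 2 * Real.pi * n * y|)) := by
        refine mul_le_mul (mul_le_mul_of_nonneg_right h2 (abs_nonneg _)) h1 (by positivity)
          (by positivity)
    _ = √Y * |a n| * C / √(1 + |T - 2 * Real.pi * n * y|) := by ring

theorem log_lip (y₀ y y' : ℝ) (hy₀ : 0 < y₀) (hy : y₀ ≤ y) (hy' : y₀ ≤ y') :
    |Real.log y - Real.log y'| ≤ |y - y'| / y₀ := by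
  have key : ∀ u v : ℝ, y₀ ≤ u → y₀ ≤ v → Real.log u - Real.log v ≤ |u - v| / y₀ := by
    intro u v hu hv
    have hu0 : 0 < u := hy₀.trans_le hu
    have hv0 : 0 < v := hy₀.trans_le hv
    have h1 : Real.log (u / v) ≤ u / v - 1 := Real.log_le_sub_one_of_pos (by positivity)
    rw [Real.log_div hu0.ne' hv0.ne'] at h1
    have h2 : u / v - 1 = (u - v) / v := by field_simp
    have h3 : (u - v) / v ≤ |u - v| / v := div_le_div_of_nonneg_right (le_abs_self _) hv0.le
    have h4 : |u - v| / v ≤ |u - v| / y₀ := div_le_div_of_nonneg_left (abs_nonneg _) hy₀ hv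
    linarith
  rw [abs_le]
  constructor
  · have := key y' y hy' hy
    rw [abs_sub_comm] at this
    linarith
  · exact key y y' hy hy'

theorem sqrt_lip (y₀ y y' : ℝ) (hy₀ : 0 < y₀) (hy : y₀ ≤ y) (hy' : y₀ ≤ y') :
    |√y - √y'| ≤ |y - y'| / √y₀ := by
  have hs : 0 < √y₀ := Real.sqrt_pos.2 hy₀
  have h1 : √y₀ ≤ √y := Real.sqrt_le_sqrt hy
  have h2 : 0 ≤ √y' := Real.sqrt_nonneg _
  have h3 : |y - y'| = |√y - √y'| * (√y + √y') := by
    rw [← abs_of_nonneg (by linarith : 0 ≤ √y + √y'), ← abs_mul]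
    congr 1
    have h4 := Real.mul_self_sqrt (hy₀.le.trans hy)
    have h5 := Real.mul_self_sqrt (hy₀.le.trans hy')
    linarith
  rw [le_div_iff₀ hs, h3]
  exact mul_le_mul_of_nonneg_left (by linarith) (abs_nonneg _)

theorem tm_lip (C T : ℝ) (hC : 0 ≤ C) (hT : 1 ≤ T)
    (h : ∀ u : ℝ, 0 < u → Real.exp (Real.pi * T / 2) * |KB T u| ≤ C / √(1 + |T - u|))
    (h' : ∀ u u' : ℝ, 0 < u → 0 < u' →
      Real.exp (Real.pi * T / 2) * |KB T u - KB T u'| ≤ C * √T * |Real.log u - Real.log u'|)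
    (a : ℕ → ℝ) (b : Bool) (x y x' y' y₀ Y δ : ℝ) (hy₀ : 0 < y₀) (hy : y₀ ≤ y) (hy' : y₀ ≤ y')
    (hyY' : y' ≤ Y) (hx : |x - x'| ≤ δ) (hyy : |y - y'| ≤ δ) (n : ℕ) (hn : 1 ≤ n) :
    |tm T a b x y n - tm T a b x' y' n| ≤
      |a n| * (C * (1 / √y₀ + √Y / y₀ + √Y * (2 * Real.pi))) * (T * n * δ) := by
  have hn1 : (1 : ℝ) ≤ n := by exact_mod_cast hn
  have hpi := Real.pi_pos
  have hy0 : 0 < y := hy₀.trans_le hy
  have hy0' : 0 < y' := hy₀.trans_le hy'
  have hδ : 0 ≤ δ := (abs_nonneg _).trans hx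
  set u := 2 * Real.pi * n * y with hu
  set u' := 2 * Real.pi * n * y' with hu'
  have hup : 0 < u := by positivity
  have hup' : 0 < u' := by positivity
  set E := Real.exp (Real.pi * T / 2) with hE
  have hE0 : 0 < E := Real.exp_pos _
  set c := Real.cos (2 * Real.pi * n * x - sh b) with hc
  set c' := Real.cos (2 * Real.pi * n * x' - sh b) with hc'
  have hdec : tm T a b x y n - tm T a b x' y' n =
      a n * ((√y - √y') * (E * KB T u) * c + √y' * (E * (KB T u - KB T u')) * c +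
        √y' * (E * KB T u') * (c - c')) := by
    unfold tm
    ring
  have hA : ∀ v : ℝ, 0 < v → E * |KB T v| ≤ C := by
    intro v hv
    refine (h v hv).trans ?_
    have h1 : 1 ≤ √(1 + |T - v|) :=
      Real.one_le_sqrt.2 (by linarith [abs_nonneg (T - v)])
    rw [div_le_iff₀ (by linarith)]
    nlinarith
  have hTn : 1 ≤ T * n := by nlinarith
  have hsT : √T ≤ T * n := by
    have h1 : √T ≤ T := by
      rw [Real.sqrt_le_left (by linarith)]
      nlinarith
    nlinarith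
  have h1 : |(√y - √y') * (E * KB T u) * c| ≤ C * (1 / √y₀) * (T * n * δ) := by
    rw [abs_mul, abs_mul, abs_mul, abs_of_pos hE0]
    have h2 := sqrt_lip y₀ y y' hy₀ hy hy'
    have h3 : |y - y'| / √y₀ ≤ δ / √y₀ := div_le_div_of_nonneg_right hyy (Real.sqrt_nonneg _)
    calc |√y - √y'| * (E * |KB T u|) * |c| ≤ (δ / √y₀) * C * 1 := by
          refine mul_le_mul (mul_le_mul (h2.trans h3) (hA u hup) (by positivity) (by positivity))
            (Real.abs_cos_le_one _) (abs_nonneg _) (by positivity)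
      _ = C * (1 / √y₀) * (1 * δ) := by ring
      _ ≤ C * (1 / √y₀) * (T * n * δ) := by
          refine mul_le_mul_of_nonneg_left (mul_le_mul_of_nonneg_right hTn hδ) (by positivity)
  have h2 : |√y' * (E * (KB T u - KB T u')) * c| ≤ C * (√Y / y₀) * (T * n * δ) := by
    rw [abs_mul, abs_mul, abs_mul, abs_of_pos hE0, abs_of_nonneg (Real.sqrt_nonneg y')]
    have h3 : √y' ≤ √Y := Real.sqrt_le_sqrt hyY'
    have h4 : E * |KB T u - KB T u'| ≤ C * (T * n) * (δ / y₀) := by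
      refine (h' u u' hup hup').trans ?_
      have h5 : Real.log u - Real.log u' = Real.log y - Real.log y' := by
        rw [hu, hu', Real.log_mul (by positivity) hy0.ne', Real.log_mul (by positivity) hy0'.ne']
        ring
      rw [h5]
      refine mul_le_mul (mul_le_mul_of_nonneg_left hsT hC) ?_ (abs_nonneg _) (by positivity)
      exact (log_lip y₀ y y' hy₀ hy hy').trans (div_le_div_of_nonneg_right hyy hy₀.le)
    calc √y' * (E * |KB T u - KB T u'|) * |c| ≤ √Y * (C * (T * n) * (δ / y₀)) * 1 := by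
          refine mul_le_mul (mul_le_mul h3 h4 (by positivity) (by positivity))
            (Real.abs_cos_le_one _) (abs_nonneg _) (by positivity)
      _ = C * (√Y / y₀) * (T * n * δ) := by ring
  have h3 : |√y' * (E * KB T u') * (c - c')| ≤ C * (√Y * (2 * Real.pi)) * (T * n * δ) := by
    rw [abs_mul, abs_mul, abs_mul, abs_of_pos hE0, abs_of_nonneg (Real.sqrt_nonneg y')]
    have h3 : √y' ≤ √Y := Real.sqrt_le_sqrt hyY'
    have h4 : |c - c'| ≤ 2 * Real.pi * n * δ := by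
      refine (Real.abs_cos_sub_cos_le _ _).trans ?_
      rw [show 2 * Real.pi * n * x - sh b - (2 * Real.pi * n * x' - sh b) =
        2 * Real.pi * n * (x - x') by ring, abs_mul, abs_of_pos (by positivity)]
      exact mul_le_mul_of_nonneg_left hx (by positivity)
    calc √y' * (E * |KB T u'|) * |c - c'| ≤ √Y * C * (2 * Real.pi * n * δ) := by
          refine mul_le_mul (mul_le_mul h3 (hA u' hup') (by positivity) (by positivity)) h4
            (abs_nonneg _) (by positivity)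
      _ = C * (√Y * (2 * Real.pi)) * (1 * n * δ) := by ring
      _ ≤ C * (√Y * (2 * Real.pi)) * (T * n * δ) := by
          refine mul_le_mul_of_nonneg_left (mul_le_mul_of_nonneg_right (mul_le_mul_of_nonneg_right
            hT (by positivity)) hδ) (by positivity)
  rw [hdec, abs_mul, mul_assoc (|a n|)]
  refine mul_le_mul_of_nonneg_left ?_ (abs_nonneg _)
  refine (abs_add_three _ _ _).trans ?_
  calc |(√y - √y') * (E * KB T u) * c| + |√y' * (E * (KB T u - KB T u')) * c| +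
        |√y' * (E * KB T u') * (c - c')|
      ≤ C * (1 / √y₀) * (T * n * δ) + C * (√Y / y₀) * (T * n * δ) +
        C * (√Y * (2 * Real.pi)) * (T * n * δ) := add_le_add (add_le_add h1 h2) h3
    _ = C * (1 / √y₀ + √Y / y₀ + √Y * (2 * Real.pi)) * (T * n * δ) := by ring

theorem tm_per (T : ℝ) (a : ℕ → ℝ) (b : Bool) (x y : ℝ) (n : ℕ) :
    tm T a b x y n = tm T a b (Int.fract x) y n := by
  unfold tm
  congr 2
  have h := Int.floor_add_fract x
  have h1 : 2 * Real.pi * n * x - sh b = 2 * Real.pi * n * Int.fract x - sh b +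
      (((n : ℤ) * ⌊x⌋ : ℤ) : ℝ) * (2 * Real.pi) := by
    nth_rewrite 1 [← h]
    push_cast
    ring
  rw [h1, Real.cos_add_int_mul_two_pi]

theorem tm_tail (h1 : S_KODE) (y₀ Y C₁ : ℝ) (hy₀ : 0 < y₀) (hC₁ : 0 ≤ C₁) :
    ∃ M : ℝ, 0 ≤ M ∧ ∀ (T : ℝ) (a : ℕ → ℝ) (b : Bool) (x y : ℝ) (n : ℕ), 1 ≤ T → y₀ ≤ y → y ≤ Y →
      T ^ 2 ≤ n → |a n| ≤ C₁ * (n * T) →
        |tm T a b x y n| ≤ M * ((n : ℝ) ^ 2 * Real.exp (-(Real.pi * y₀) * n)) := by
  have hpi := Real.pi_pos
  refine ⟨√Y * C₁ * √(1 / (4 * y₀)) * Real.exp (Real.pi / (16 * y₀)), by positivity, ?_⟩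
  intro T a b x y n hT hy hyY hTn ha
  have hy0 : 0 < y := hy₀.trans_le hy
  have hn1 : (1 : ℝ) ≤ n := by nlinarith
  set u := 2 * Real.pi * n * y with hu
  have hup : 0 < u := by positivity
  have hKB := h1.2.1 T u hup
  have hu0 : 2 * Real.pi * n * y₀ ≤ u := by
    rw [hu]
    exact mul_le_mul_of_nonneg_left hy (by positivity)
  have h2 : √(Real.pi / (2 * u)) ≤ √(1 / (4 * y₀)) := by
    refine Real.sqrt_le_sqrt ?_
    rw [div_le_div_iff₀ (by positivity) (by positivity)]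
    have : Real.pi * y₀ ≤ Real.pi * n * y₀ := by
      have h3 : Real.pi * 1 * y₀ ≤ Real.pi * n * y₀ :=
        mul_le_mul_of_nonneg_right (mul_le_mul_of_nonneg_left hn1 hpi.le) hy₀.le
      linarith
    nlinarith
  have h3 : Real.exp (Real.pi * T / 2) * Real.exp (-u) ≤
      Real.exp (Real.pi / (16 * y₀)) * Real.exp (-(Real.pi * y₀) * n) := by
    rw [← Real.exp_add, ← Real.exp_add, Real.exp_le_exp]
    have h4 : T / 2 ≤ T ^ 2 * y₀ + 1 / (16 * y₀) := by
      have h5 : T ^ 2 * y₀ + 1 / (16 * y₀) - T / 2 = y₀ * (T - 1 / (4 * y₀)) ^ 2 := by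
        field_simp
        ring
      have h6 : 0 ≤ y₀ * (T - 1 / (4 * y₀)) ^ 2 := by positivity
      linarith
    have h5 : T ^ 2 * y₀ ≤ n * y₀ := mul_le_mul_of_nonneg_right hTn hy₀.le
    have h6 : Real.pi * (T / 2) ≤ Real.pi * (n * y₀ + 1 / (16 * y₀)) :=
      mul_le_mul_of_nonneg_left (by linarith) hpi.le
    have h7 : Real.pi * (n * y₀ + 1 / (16 * y₀)) = Real.pi * n * y₀ + Real.pi / (16 * y₀) := by
      ring
    linarith
  have h4 : |a n| ≤ C₁ * (n : ℝ) ^ 2 := by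
    refine ha.trans (mul_le_mul_of_nonneg_left ?_ hC₁)
    rw [sq]
    refine mul_le_mul_of_nonneg_left ?_ (by positivity)
    nlinarith
  unfold tm
  rw [abs_mul, abs_mul, abs_mul, abs_mul, Real.abs_exp, abs_of_nonneg (Real.sqrt_nonneg y), ← hu]
  calc Real.exp (Real.pi * T / 2) * √y * (|a n| * |KB T u| *
        |Real.cos (2 * Real.pi * n * x - sh b)|)
      ≤ Real.exp (Real.pi * T / 2) * √Y * ((C₁ * (n : ℝ) ^ 2) * (√(1 / (4 * y₀)) * Real.exp (-u)) *
          1) := by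
        refine mul_le_mul (mul_le_mul_of_nonneg_left (Real.sqrt_le_sqrt hyY) (Real.exp_pos _).le)
          (mul_le_mul (mul_le_mul h4 (hKB.trans (mul_le_mul_of_nonneg_right h2
            (Real.exp_pos _).le)) (abs_nonneg _) (by positivity)) (Real.abs_cos_le_one _)
            (abs_nonneg _) (by positivity)) (by positivity) (by positivity)
    _ = √Y * C₁ * √(1 / (4 * y₀)) * (n : ℝ) ^ 2 * (Real.exp (Real.pi * T / 2) * Real.exp (-u)) := by
        ring
    _ ≤ √Y * C₁ * √(1 / (4 * y₀)) * (n : ℝ) ^ 2 *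
          (Real.exp (Real.pi / (16 * y₀)) * Real.exp (-(Real.pi * y₀) * n)) :=
        mul_le_mul_of_nonneg_left h3 (by positivity)
    _ = √Y * C₁ * √(1 / (4 * y₀)) * Real.exp (Real.pi / (16 * y₀)) *
          ((n : ℝ) ^ 2 * Real.exp (-(Real.pi * y₀) * n)) := by ring

theorem phc_eq (f : ℕ → ℝ) (T : ℝ) (a : ℕ → ℝ) (x y : ℝ) :
    phc f T a x y = ∑' n : ℕ, tm T a true x y (n + 1) * f (n + 1) := by
  unfold phc tm
  rw [← tsum_mul_left]
  congr 1
  ext n
  simp only [sh, if_true, sub_zero]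
  push_cast
  ring

theorem phs_eq (f : ℕ → ℝ) (T : ℝ) (a : ℕ → ℝ) (x y : ℝ) :
    phs f T a x y = ∑' n : ℕ, tm T a false x y (n + 1) * f (n + 1) := by
  unfold phs tm
  rw [← tsum_mul_left]
  congr 1
  ext n
  simp only [sh, Bool.false_eq_true, if_false, Real.cos_sub_pi_div_two]
  push_cast
  ring

end Pool.Agent.Q65.L2
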