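import Pool.Agent.Q255.L2.Alm

/-!
# Project L2Q of helper255: from almost all odd numbers to almost all primes
-/

set_option autoImplicit false

namespace Pool.Agent.Q65.L2.Almp

open Filter Topology Finset
open Pool.Agent.Q255.L2

theorem geo_Ico (a b : ℕ) : ∑ J ∈ Ico a b, (1 / 2 : ℝ) ^ J ≤ 2 * (1 / 2 : ℝ) ^ a := by
  rcases le_or_gt b a with h | h
  · rw [Ico_eq_empty (by omega), sum_empty]
    positivity
  · have key : ∀ n : ℕ, a ≤ n → ∑ J ∈ Ico a n, (1 / 2 : ℝ) ^ J = 2 * (1 / 2 : ℝ) ^ a -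
        2 * (1 / 2 : ℝ) ^ n := by
      intro n hn
      induction n, hn using Nat.le_induction with
      | base => simp
      | succ n hn ih =>
        rw [Finset.sum_Ico_succ_top hn, ih, pow_succ]
        ring
    rw [key b h.le]
    have : (0 : ℝ) ≤ 2 * (1 / 2 : ℝ) ^ b := by positivity
    linarith

theorem geo_set (T : Finset ℕ) (L : ℝ) (hL : 0 < L) (hT : ∀ J ∈ T, L ≤ (2 : ℝ) ^ J) :
    ∑ J ∈ T, (1 / 2 : ℝ) ^ J ≤ 2 / L := by
  rcases T.eq_empty_or_nonempty with h | h
  · rw [h, sum_empty]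
    positivity
  · have h1 : T ⊆ Ico (T.min' h) (T.max' h + 1) := by
      intro J hJ
      rw [mem_Ico]
      exact ⟨T.min'_le J hJ, Nat.lt_succ_of_le (T.le_max' J hJ)⟩
    have h2 : ∑ J ∈ T, (1 / 2 : ℝ) ^ J ≤ ∑ J ∈ Ico (T.min' h) (T.max' h + 1), (1 / 2 : ℝ) ^ J :=
      sum_le_sum_of_subset_of_nonneg h1 fun _ _ _ => by positivity
    have h3 := hT _ (T.min'_mem h)
    have h4 : (1 / 2 : ℝ) ^ (T.min' h) ≤ 1 / L := by
      rw [one_div_pow]
      exact one_div_le_one_div_of_le hL h3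
    calc ∑ J ∈ T, (1 / 2 : ℝ) ^ J ≤ 2 * (1 / 2 : ℝ) ^ (T.min' h) := h2.trans (geo_Ico _ _)
      _ ≤ 2 * (1 / L) := by linarith
      _ = 2 / L := by ring

theorem large (B C₀ : ℝ) : ∃ P₀ : ℕ, ∀ P : ℕ, P₀ ≤ P → 4 ≤ P ∧ 1 < Real.log P ∧
    4 * C₀ ≤ Real.log P ∧ 2 * Real.log P ^ B ≤ √(P : ℝ) := by
  have h1 : Tendsto (fun P : ℕ => (P : ℝ)) atTop atTop := tendsto_natCast_atTop_atTop
  have h2 : Tendsto (fun P : ℕ => Real.log P) atTop atTop := Real.tendsto_log_atTop.comp h1
  have h3 : ∀ᶠ x : ℝ in atTop, ‖Real.log x ^ B‖ ≤ (1 / 2) * ‖x ^ (1 / 2 : ℝ)‖ :=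
    (isLittleO_log_rpow_rpow_atTop B (by norm_num : (0 : ℝ) < 1 / 2)).def (by norm_num)
  have h4 := h1.eventually h3
  obtain ⟨P₀, hP⟩ := eventually_atTop.1 ((eventually_ge_atTop 4).and
    ((h2.eventually_gt_atTop 1).and ((h2.eventually_ge_atTop (4 * C₀)).and h4)))
  refine ⟨P₀, fun P hPP => ?_⟩
  obtain ⟨a1, a2, a3, a4⟩ := hP P hPP
  refine ⟨a1, a2, a3, ?_⟩
  rw [← Real.sqrt_eq_rpow, Real.norm_eq_abs, Real.norm_eq_abs,
    abs_of_nonneg (Real.rpow_nonneg (by linarith) _), abs_of_nonneg (Real.sqrt_nonneg _)] at a4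
  linarith

theorem almp : S_ALMP := by
  classical
  intro Q r hAlm B
  rw [alm_iff] at hAlm
  obtain ⟨K₁, C, hC⟩ := hAlm 1
  obtain ⟨P₀, hP₀⟩ := large B (max C 0)
  have hB0 : (0 : ℝ) ≤ max B 0 := le_max_right _ _
  have hBB : B ≤ max B 0 := le_max_left _ _
  have hC0 : (0 : ℝ) ≤ max C 0 := le_max_right _ _
  have hCC : C ≤ max C 0 := le_max_left _ _
  refine ⟨max K₁ (2 * r + 3), max B 0 + 1, P₀, by linarith, ?_⟩
  intro P hP S hS
  obtain ⟨hP4, hlog1, hlogC, hsq⟩ := hP₀ P hP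
  have hPpos : (0 : ℝ) < P := by
    have : 0 < P := by omega
    exact_mod_cast this
  have hlog0 : 0 < Real.log P := by linarith
  set D : ℝ := max B 0 + 1 with hD
  have hD0 : 0 < D := by linarith
  have hLD : 1 < Real.log P ^ D := Real.one_lt_rpow hlog1 hD0
  have hLD0 : 0 < Real.log P ^ D := by linarith
  set T : Finset ℕ := (range (P + 1)).filter fun J => Real.log P ^ D ≤ 2 ^ J ∧
    2 ^ (max K₁ (2 * r + 3) * J) ≤ P with hT
  have hsub : S ⊆ Icc 1 (Nat.sqrt P) ∪
      T.biUnion fun J => Exc (fun J m => Rgh (J + r) m → Q J m) J P := by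
    intro p hp
    obtain ⟨hpP, hpp, J, hJ1, hJ2, hJQ⟩ := hS p hp
    rw [mem_union]
    rcases le_or_gt (p * p) P with h | h
    · left
      rw [mem_Icc]
      exact ⟨hpp.one_le, Nat.le_sqrt.2 h⟩
    · right
      have hJ0 : 1 ≤ J := by
        by_contra hcon
        have : J = 0 := by omega
        rw [this, pow_zero] at hJ1
        linarith
      rw [mem_biUnion]
      refine ⟨J, ?_, ?_⟩
      · rw [hT, mem_filter, mem_range]
        refine ⟨?_, hJ1, hJ2⟩
        have h1 : J < 2 ^ J := Nat.lt_two_pow_self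
        have h2 : 2 ^ J ≤ 2 ^ (max K₁ (2 * r + 3) * J) := by
          refine Nat.pow_le_pow_right (by norm_num) ?_
          exact Nat.le_mul_of_pos_left J (lt_of_lt_of_le (by omega) (le_max_right _ _))
        omega
      · rw [mem_exc, mem_Icc]
        have hrgh : 2 ^ (J + r) < p := by
          by_contra hcon
          push Not at hcon
          have h1 : p * p ≤ 2 ^ (J + r) * 2 ^ (J + r) := Nat.mul_le_mul hcon hcon
          have h2 : 2 ^ (J + r) * 2 ^ (J + r) = 2 ^ (2 * (J + r)) := by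
            rw [← pow_add]
            congr 1
            ring
          have h3 : 2 * (J + r) ≤ max K₁ (2 * r + 3) * J := by
            have h4 : (2 * r + 3) * J ≤ max K₁ (2 * r + 3) * J :=
              Nat.mul_le_mul_right J (le_max_right _ _)
            have h5 : 2 * (J + r) ≤ (2 * r + 3) * J := by nlinarith
            exact h5.trans h4
          have h4 : 2 ^ (2 * (J + r)) ≤ 2 ^ (max K₁ (2 * r + 3) * J) :=
            Nat.pow_le_pow_right (by norm_num) h3
          omega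
        refine ⟨⟨hpp.one_le, hpP⟩, ?_, ?_⟩
        · refine hpp.odd_of_ne_two ?_
          rintro rfl
          omega
        · intro hcon
          refine hJQ (hcon ?_)
          intro q hq hqp
          rw [(Nat.prime_dvd_prime_iff_eq hq hpp).1 hqp]
          exact hrgh
  have hcard : (S.card : ℝ) ≤ Nat.sqrt P + ∑ J ∈ T,
      ((Exc (fun J m => Rgh (J + r) m → Q J m) J P).card : ℝ) := by
    have h1 := card_le_card hsub
    have h2 := card_union_le (Icc 1 (Nat.sqrt P))
      (T.biUnion fun J => Exc (fun J m => Rgh (J + r) m → Q J m) J P)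
    have h3 := card_biUnion_le (s := T)
      (t := fun J => Exc (fun J m => Rgh (J + r) m → Q J m) J P)
    rw [Nat.card_Icc, Nat.add_sub_cancel] at h2
    have h4 : S.card ≤ Nat.sqrt P + ∑ J ∈ T,
        (Exc (fun J m => Rgh (J + r) m → Q J m) J P).card := by omega
    exact_mod_cast h4
  have hexc : ∀ J ∈ T, ((Exc (fun J m => Rgh (J + r) m → Q J m) J P).card : ℝ) ≤
      max C 0 * P * (1 / 2 : ℝ) ^ J := by
    intro J hJ
    rw [hT, mem_filter] at hJ
    have h1 : 2 ^ (K₁ * J) ≤ P :=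
      (Nat.pow_le_pow_right (by norm_num) (Nat.mul_le_mul_right J (le_max_left _ _))).trans hJ.2.2
    have h2 := hC J P h1
    have h3 : (2 : ℝ) ^ (-(1 * (J : ℝ))) = (1 / 2 : ℝ) ^ J := by
      rw [one_mul, Real.rpow_neg (by norm_num), Real.rpow_natCast, one_div_pow, one_div]
    rw [h3] at h2
    refine h2.trans ?_
    exact mul_le_mul_of_nonneg_right (mul_le_mul_of_nonneg_right hCC hPpos.le) (by positivity)
  have hsum : ∑ J ∈ T, ((Exc (fun J m => Rgh (J + r) m → Q J m) J P).card : ℝ) ≤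
      max C 0 * P * (2 / Real.log P ^ D) := by
    refine (sum_le_sum hexc).trans ?_
    rw [← mul_sum]
    refine mul_le_mul_of_nonneg_left ?_ (by positivity)
    refine geo_set T _ hLD0 fun J hJ => ?_
    rw [hT, mem_filter] at hJ
    exact hJ.2.1
  have hs1 : (Nat.sqrt P : ℝ) ≤ √(P : ℝ) := by
    refine Real.le_sqrt_of_sq_le ?_
    have h1 : Nat.sqrt P * Nat.sqrt P ≤ P := Nat.sqrt_le P
    rw [sq]
    exact_mod_cast h1
  have hLB0 : 0 < Real.log P ^ B := Real.rpow_pos_of_pos hlog0 _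
  -- the first term
  have ht1 : √(P : ℝ) ≤ (1 / 2) * (P / Real.log P ^ B) := by
    have h1 : √(P : ℝ) * √(P : ℝ) = P := Real.mul_self_sqrt hPpos.le
    have h2 : 0 < √(P : ℝ) := Real.sqrt_pos.2 hPpos
    rw [← mul_div_assoc, le_div_iff₀ hLB0]
    nlinarith
  -- the second term
  have ht2 : max C 0 * P * (2 / Real.log P ^ D) ≤ (1 / 2) * (P / Real.log P ^ B) := by
    have h1 : Real.log P ^ B * Real.log P ≤ Real.log P ^ D := by
      rw [← Real.rpow_add_one hlog0.ne']
      exact Real.rpow_le_rpow_of_exponent_le hlog1.le (by rw [hD]; linarith)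
    have h2 : max C 0 * P * (2 / Real.log P ^ D) ≤
        max C 0 * P * (2 / (Real.log P ^ B * Real.log P)) :=
      mul_le_mul_of_nonneg_left (div_le_div_of_nonneg_left (by norm_num) (by positivity) h1)
        (by positivity)
    refine h2.trans ?_
    rw [mul_div_assoc', ← mul_div_assoc, div_le_div_iff₀ (by positivity) hLB0]
    have h3 : 4 * max C 0 * (P * Real.log P ^ B) ≤ Real.log P * (P * Real.log P ^ B) :=
      mul_le_mul_of_nonneg_right hlogC (by positivity)
    linarith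
  linarith

end Pool.Agent.Q65.L2.Almp

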