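import Pool.Agent.Q255.L2.StmK

/-!
# The norm of weights with a singularity of order one half
-/

set_option autoImplicit false

namespace Pool.Agent.Q65.L2

open Filter Topology MeasureTheory Finset
open Pool.Agent.Q255.IC Pool.Agent.Q255.IR Pool.Agent.Q255.EP Pool.Agent.Q255.L2

theorem sqf_unique {s1 s2 u1 u2 : ℕ} (h1 : Squarefree s1) (h2 : Squarefree s2) (hu1 : u1 ≠ 0)
    (hu2 : u2 ≠ 0) (h : s1 * u1 ^ 2 = s2 * u2 ^ 2) : s1 = s2 ∧ u1 = u2 := by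
  have hs1 : s1 ≠ 0 := h1.ne_zero
  have hs2 : s2 ≠ 0 := h2.ne_zero
  have hs : s1 = s2 := by
    apply Nat.eq_of_factorization_eq hs1 hs2
    intro p
    have e : (s1 * u1 ^ 2).factorization p = (s2 * u2 ^ 2).factorization p := by rw [h]
    rw [Nat.factorization_mul hs1 (pow_ne_zero 2 hu1), Nat.factorization_mul hs2 (pow_ne_zero 2 hu2),
      Nat.factorization_pow, Nat.factorization_pow] at e
    simp only [Finsupp.coe_add, Finsupp.coe_smul, Pi.add_apply, Pi.smul_apply, smul_eq_mul] at e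
    have a1 := h1.natFactorization_le_one p
    have a2 := h2.natFactorization_le_one p
    omega
  refine ⟨hs, ?_⟩
  subst hs
  have h3 : u1 ^ 2 = u2 ^ 2 := Nat.eq_of_mul_eq_mul_left (Nat.pos_of_ne_zero hs1) h
  exact Nat.pow_left_injective (n := 2) (by norm_num) h3

theorem sum_inj_le (S : Finset ℕ) (X : ℕ) (k : ℕ → ℕ) (f g : ℕ → ℝ) (hg : ∀ n, 0 ≤ g n)
    (hk : ∀ n ∈ S, k n < X) (hinj : Set.InjOn k S) (hfg : ∀ n ∈ S, f n ≤ g (k n)) :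
    ∑ n ∈ S, f n ≤ ∑ j ∈ range X, g j := by
  calc ∑ n ∈ S, f n ≤ ∑ n ∈ S, g (k n) := sum_le_sum hfg
    _ = ∑ j ∈ S.image k, g j := (sum_image hinj).symm
    _ ≤ ∑ j ∈ range X, g j := sum_le_sum_of_subset_of_nonneg (by
        intro j hj
        obtain ⟨n, hn, rfl⟩ := mem_image.1 hj
        exact mem_range.2 (hk n hn)) fun j _ _ => hg j

theorem harm (J : ℕ) : ∑ k ∈ range (2 ^ J), 1 / ((k : ℝ) + 1) ≤ (J : ℝ) + 1 := by
  have h := harmonic_le_one_add_log (2 ^ J)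
  unfold harmonic at h
  push_cast at h
  have h1 : Real.log ((2 : ℝ) ^ J) ≤ J := by
    rw [Real.log_pow]
    have := Real.log_two_lt_d9
    nlinarith [Nat.cast_nonneg (α := ℝ) J]
  simp only [one_div]
  linarith

theorem hsum (J n₀ : ℕ) : ∑ n ∈ Icc (1 : ℕ) (2 ^ J), 1 / (1 + |(n : ℝ) - n₀|) ≤ 2 * ((J : ℝ) + 1) := by
  rw [← sum_filter_add_sum_filter_not (Icc (1 : ℕ) (2 ^ J)) (fun n => n ≤ n₀)]
  have h1 : ∑ n ∈ (Icc (1 : ℕ) (2 ^ J)).filter (fun n => n ≤ n₀), 1 / (1 + |(n : ℝ) - n₀|) ≤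
      ∑ k ∈ range (2 ^ J), 1 / ((k : ℝ) + 1) := by
    refine sum_inj_le _ _ (fun n => min (2 ^ J) n₀ - n) _ _ (fun n => by positivity) ?_ ?_ ?_
    · intro n hn
      rw [mem_filter, mem_Icc] at hn
      have := min_le_left (2 ^ J) n₀
      omega
    · intro n hn m hm h
      rw [mem_coe, mem_filter, mem_Icc] at hn hm
      dsimp only at h
      have h3 : n ≤ min (2 ^ J) n₀ := le_min hn.1.2 hn.2
      have h4 : m ≤ min (2 ^ J) n₀ := le_min hm.1.2 hm.2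
      omega
    · intro n hn
      rw [mem_filter, mem_Icc] at hn
      have h3 : n ≤ min (2 ^ J) n₀ := le_min hn.1.2 hn.2
      have h4 : (((min (2 ^ J) n₀ - n : ℕ) : ℝ)) = ((min (2 ^ J) n₀ : ℕ) : ℝ) - n := Nat.cast_sub h3
      have h5 : ((min (2 ^ J) n₀ : ℕ) : ℝ) ≤ n₀ := by exact_mod_cast min_le_right _ _
      have h6 : (n : ℝ) ≤ n₀ := by exact_mod_cast hn.2
      have h7 : (n : ℝ) ≤ ((min (2 ^ J) n₀ : ℕ) : ℝ) := by exact_mod_cast h3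
      rw [h4, abs_of_nonpos (by linarith)]
      refine one_div_le_one_div_of_le (by linarith) (by linarith)
  have h2 : ∑ n ∈ (Icc (1 : ℕ) (2 ^ J)).filter (fun n => ¬ n ≤ n₀), 1 / (1 + |(n : ℝ) - n₀|) ≤
      ∑ k ∈ range (2 ^ J), 1 / ((k : ℝ) + 1) := by
    refine sum_inj_le _ _ (fun n => n - n₀ - 1) _ _ (fun n => by positivity) ?_ ?_ ?_
    · intro n hn
      rw [mem_filter, mem_Icc] at hn
      omega
    · intro n hn m hm h
      rw [mem_coe, mem_filter, mem_Icc] at hn hm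
      dsimp only at h
      omega
    · intro n hn
      rw [mem_filter, mem_Icc] at hn
      have h3 : n₀ + 1 ≤ n := by omega
      have h4 : (((n - n₀ - 1 : ℕ) : ℝ)) = (n : ℝ) - (n₀ + 1) := by
        rw [Nat.sub_sub, Nat.cast_sub h3]
        push_cast
        ring
      have h6 : (n₀ : ℝ) + 1 ≤ n := by exact_mod_cast h3
      rw [h4, abs_of_nonneg (by linarith)]
      refine one_div_le_one_div_of_le (by linarith) (by linarith)
  linarith [harm J]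

/-- far from the singularity -/
theorem far_bd (κ T : ℝ) (hκ : 0 < κ) (hT : 0 ≤ T) (r : ℕ) (hr1 : r ≠ ⌊√(T / κ)⌋₊)
    (hr2 : r ≠ ⌊√(T / κ)⌋₊ + 1) :
    √κ * ((1 + |(r : ℝ) - ⌊√(T / κ)⌋₊|) / 3) ≤ √(1 + |T - κ * (r : ℝ) ^ 2|) := by
  set ρ := √(T / κ) with hρ
  set n₀ := ⌊ρ⌋₊ with hn₀
  have hρ0 : 0 ≤ ρ := Real.sqrt_nonneg _
  have hρ2 : κ * ρ ^ 2 = T := by
    rw [hρ, Real.sq_sqrt (by positivity)]
    field_simp
  have h1 : (n₀ : ℝ) ≤ ρ := Nat.floor_le hρ0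
  have h2 : ρ < n₀ + 1 := Nat.lt_floor_add_one ρ
  have h3 : (1 + |(r : ℝ) - n₀|) / 3 ≤ |(r : ℝ) - ρ| := by
    rcases Nat.lt_or_ge r n₀ with h | h
    · have h4 : (r : ℝ) + 1 ≤ n₀ := by exact_mod_cast h
      rw [abs_of_nonpos (by linarith), abs_of_nonpos (by linarith)]
      linarith
    · have h4 : n₀ + 2 ≤ r := by omega
      have h5 : (n₀ : ℝ) + 2 ≤ r := by exact_mod_cast h4
      rw [abs_of_nonneg (by linarith), abs_of_nonneg (by linarith)]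
      linarith
  have h4 : κ * |(r : ℝ) - ρ| ^ 2 ≤ |T - κ * (r : ℝ) ^ 2| := by
    have h5 : |T - κ * (r : ℝ) ^ 2| = κ * (|(r : ℝ) - ρ| * (r + ρ)) := by
      rw [← hρ2, show κ * ρ ^ 2 - κ * (r : ℝ) ^ 2 = -(κ * (((r : ℝ) - ρ) * (r + ρ))) by ring, abs_neg,
        abs_mul, abs_mul, abs_of_pos hκ, abs_of_nonneg (by positivity : (0 : ℝ) ≤ r + ρ)]
    rw [h5, sq]
    have h6 : |(r : ℝ) - ρ| ≤ r + ρ := by
      rw [abs_le]
      constructor <;> linarith [Nat.cast_nonneg (α := ℝ) r]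
    exact mul_le_mul_of_nonneg_left (mul_le_mul_of_nonneg_left h6 (abs_nonneg _)) hκ.le
  refine Real.le_sqrt_of_sq_le ?_
  rw [mul_pow, Real.sq_sqrt hκ.le]
  have h7 : ((1 + |(r : ℝ) - n₀|) / 3) ^ 2 ≤ |(r : ℝ) - ρ| ^ 2 :=
    pow_le_pow_left₀ (by positivity) h3 2
  nlinarith [mul_le_mul_of_nonneg_left h7 hκ.le]

theorem sq_two (S : Finset ℕ) (hS : S.card ≤ 2) (v : ℕ → ℝ) :
    (∑ r ∈ S, v r) ^ 2 ≤ 2 * ∑ r ∈ S, v r ^ 2 := by
  have h := sq_sum_le_card_mul_sum_sq (s := S) (f := v)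
  have h1 : (S.card : ℝ) ≤ 2 := by exact_mod_cast hS
  have h2 : 0 ≤ ∑ r ∈ S, v r ^ 2 := sum_nonneg fun _ _ => sq_nonneg _
  nlinarith [mul_le_mul_of_nonneg_right h1 h2]

theorem pairs (X : ℕ) (w : ℕ → ℝ) (hw : ∀ n, X < n → w n = 0) :
    ∑ s ∈ (Icc 1 X).filter Squarefree, ∑ r ∈ Icc 1 X, |w (r ^ 2 * s)| ^ 2 ≤
      ∑ n ∈ Icc 1 X, |w n| ^ 2 := by
  rw [← sum_product' ((Icc 1 X).filter Squarefree) (Icc 1 X) (fun s r => |w (r ^ 2 * s)| ^ 2)]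
  rw [← sum_filter_of_ne (p := fun q : ℕ × ℕ => q.2 ^ 2 * q.1 ≤ X) (by
    intro q _ hq
    by_contra hlt
    exact hq (by rw [hw _ (not_le.1 hlt)]; simp))]
  have hinj : Set.InjOn (fun q : ℕ × ℕ => q.2 ^ 2 * q.1)
      ((((Icc 1 X).filter Squarefree) ×ˢ (Icc 1 X)).filter fun q : ℕ × ℕ => q.2 ^ 2 * q.1 ≤ X) := by
    intro q hq q' hq' h
    rw [mem_coe, mem_filter, mem_product, mem_filter, mem_Icc, mem_Icc] at hq hq'
    dsimp only at h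
    obtain ⟨h1, h2⟩ := sqf_unique hq.1.1.2 hq'.1.1.2 (by omega) (by omega)
      (show q.1 * q.2 ^ 2 = q'.1 * q'.2 ^ 2 by rw [mul_comm, h, mul_comm])
    exact Prod.ext h1 h2
  rw [← sum_image (f := fun n => |w n| ^ 2) hinj]
  refine sum_le_sum_of_subset_of_nonneg ?_ fun _ _ _ => by positivity
  intro n hn
  obtain ⟨q, hq, rfl⟩ := mem_image.1 hn
  rw [mem_filter, mem_product, mem_filter, mem_Icc, mem_Icc] at hq
  rw [mem_Icc]
  refine ⟨Nat.succ_le_of_lt (Nat.mul_pos (pow_pos (by omega) 2) (by omega)), hq.2⟩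

theorem near_bd (c₀ c T : ℝ) (hc₀ : 0 < c₀) (hc : c₀ ≤ c) (hT : 0 ≤ T) (n : ℕ) :
    min c₀ (1 / 2) * (1 + |(n : ℝ) - ⌊T / c⌋₊|) ≤ 1 + |T - c * n| := by
  have hcpos : 0 < c := hc₀.trans_le hc
  set n₁ := ⌊T / c⌋₊ with hn₁
  have hq : 0 ≤ T / c := by positivity
  have h1 : (n₁ : ℝ) ≤ T / c := Nat.floor_le hq
  have h2 : T / c < n₁ + 1 := Nat.lt_floor_add_one _
  have h3 : |T - c * n| = c * |(n : ℝ) - T / c| := by
    rw [show T - c * n = -(c * ((n : ℝ) - T / c)) by field_simp; ring, abs_neg, abs_mul,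
      abs_of_pos hcpos]
  have h4 : |(n : ℝ) - n₁| ≤ |(n : ℝ) - T / c| + 1 := by
    have := abs_add_le ((n : ℝ) - T / c) (T / c - n₁)
    rw [show (n : ℝ) - T / c + (T / c - n₁) = (n : ℝ) - n₁ by ring] at this
    have h5 : |T / c - n₁| ≤ 1 := by
      rw [abs_le]
      constructor <;> linarith
    linarith
  set δ := min c₀ (1 / 2) with hδ
  have hδ1 : δ ≤ c₀ := min_le_left _ _
  have hδ2 : δ ≤ 1 / 2 := min_le_right _ _
  have hδ0 : 0 < δ := lt_min hc₀ (by norm_num)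
  have h6 : δ * |(n : ℝ) - T / c| ≤ c * |(n : ℝ) - T / c| :=
    mul_le_mul_of_nonneg_right (hδ1.trans hc) (abs_nonneg _)
  rw [h3]
  nlinarith [mul_le_mul_of_nonneg_left h4 hδ0.le]

theorem kn : S_KN := by
  intro y₀ y₁ hy₀ _
  set c₀ := 2 * Real.pi * y₀ with hc₀
  have hpi := Real.pi_pos
  have hc₀p : 0 < c₀ := by positivity
  set δ := min c₀ (1 / 2) with hδ
  have hδ0 : 0 < δ := lt_min hc₀p (by norm_num)
  refine ⟨8 / δ + 288 / c₀, by positivity, ?_⟩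
  intro T y L J w hT _ hy _ hL hw hw0
  set c := 2 * Real.pi * y with hc
  have hcc : c₀ ≤ c := by
    rw [hc₀, hc]
    exact mul_le_mul_of_nonneg_left hy (by positivity)
  have hcp : 0 < c := hc₀p.trans_le hcc
  have hT0 : 0 ≤ T := by linarith
  have hJ1 : (1 : ℝ) ≤ (J : ℝ) + 1 := by linarith [Nat.cast_nonneg (α := ℝ) J]
  -- the inner sum
  have hin : ∀ s ∈ (Icc (1 : ℕ) (2 ^ J)).filter Squarefree, (∑ r ∈ Icc (1 : ℕ) (2 ^ J), |w (r ^ 2 * s)|) ^ 2 ≤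
      4 * ∑ r ∈ Icc (1 : ℕ) (2 ^ J), |w (r ^ 2 * s)| ^ 2 + 144 * (L ^ 2 * ((J : ℝ) + 1) ^ 2 / c₀) *
        (1 / (1 + |(s : ℝ) - (0 : ℕ)|)) := by
    intro s hs
    rw [mem_filter, mem_Icc] at hs
    have hs1 : (1 : ℝ) ≤ s := by exact_mod_cast hs.1.1
    set κ := c * s with hκ
    have hκ0 : 0 < κ := by positivity
    set n₀ := ⌊√(T / κ)⌋₊ with hn₀
    rw [← sum_filter_add_sum_filter_not (Icc (1 : ℕ) (2 ^ J)) (fun r => r = n₀ ∨ r = n₀ + 1)]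
    set A := ∑ r ∈ (Icc (1 : ℕ) (2 ^ J)).filter (fun r => r = n₀ ∨ r = n₀ + 1), |w (r ^ 2 * s)| with hA
    set B := ∑ r ∈ (Icc (1 : ℕ) (2 ^ J)).filter (fun r => ¬ (r = n₀ ∨ r = n₀ + 1)), |w (r ^ 2 * s)| with hB
    have hAb : A ^ 2 ≤ 2 * ∑ r ∈ Icc (1 : ℕ) (2 ^ J), |w (r ^ 2 * s)| ^ 2 := by
      refine (sq_two _ ?_ _).trans ?_
      · refine (card_le_card (t := {n₀, n₀ + 1}) ?_).trans card_le_two
        intro r hr
        rw [mem_filter] at hr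
        rw [mem_insert, mem_singleton]
        exact hr.2
      · refine mul_le_mul_of_nonneg_left ?_ (by norm_num)
        exact sum_le_sum_of_subset_of_nonneg (filter_subset _ _) fun _ _ _ => by positivity
    have hBb : B ≤ 6 * L * ((J : ℝ) + 1) / √κ := by
      have h1 : ∀ r ∈ (Icc (1 : ℕ) (2 ^ J)).filter (fun r => ¬ (r = n₀ ∨ r = n₀ + 1)),
          |w (r ^ 2 * s)| ≤ 3 * L / √κ * (1 / (1 + |(r : ℝ) - n₀|)) := by
        intro r hr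
        rw [mem_filter, not_or] at hr
        refine (hw _).trans ?_
        have h2 := far_bd κ T hκ0 hT0 r hr.2.1 hr.2.2
        have h3 : T - 2 * Real.pi * ((r ^ 2 * s : ℕ) : ℝ) * y = T - κ * (r : ℝ) ^ 2 := by
          rw [hκ, hc]
          push_cast
          ring
        rw [h3]
        have h4 : 0 < √κ := Real.sqrt_pos.2 hκ0
        have h5 : 0 < √κ * ((1 + |(r : ℝ) - n₀|) / 3) := by positivity
        calc L / √(1 + |T - κ * (r : ℝ) ^ 2|) ≤ L / (√κ * ((1 + |(r : ℝ) - n₀|) / 3)) :=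
              div_le_div_of_nonneg_left hL h5 h2
          _ = 3 * L / √κ * (1 / (1 + |(r : ℝ) - n₀|)) := by
              field_simp
      calc B ≤ ∑ r ∈ (Icc (1 : ℕ) (2 ^ J)).filter (fun r => ¬ (r = n₀ ∨ r = n₀ + 1)),
            3 * L / √κ * (1 / (1 + |(r : ℝ) - n₀|)) := sum_le_sum h1
        _ ≤ ∑ r ∈ Icc (1 : ℕ) (2 ^ J), 3 * L / √κ * (1 / (1 + |(r : ℝ) - n₀|)) :=
            sum_le_sum_of_subset_of_nonneg (filter_subset _ _) fun _ _ _ => by positivity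
        _ = 3 * L / √κ * ∑ r ∈ Icc (1 : ℕ) (2 ^ J), 1 / (1 + |(r : ℝ) - n₀|) := by rw [mul_sum]
        _ ≤ 3 * L / √κ * (2 * ((J : ℝ) + 1)) :=
            mul_le_mul_of_nonneg_left (hsum J n₀) (by positivity)
        _ = 6 * L * ((J : ℝ) + 1) / √κ := by ring
    have hB0 : 0 ≤ B := sum_nonneg fun _ _ => abs_nonneg _
    have hB2 : B ^ 2 ≤ 36 * (L ^ 2 * ((J : ℝ) + 1) ^ 2 / κ) := by
      refine (pow_le_pow_left₀ hB0 hBb 2).trans (le_of_eq ?_)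
      rw [div_pow, Real.sq_sqrt hκ0.le]
      ring
    have hB3 : 36 * (L ^ 2 * ((J : ℝ) + 1) ^ 2 / κ) ≤ 72 * (L ^ 2 * ((J : ℝ) + 1) ^ 2 / c₀) *
        (1 / (1 + |(s : ℝ) - (0 : ℕ)|)) := by
      rw [Nat.cast_zero, sub_zero, abs_of_nonneg (by linarith : (0 : ℝ) ≤ s)]
      have h1 : L ^ 2 * ((J : ℝ) + 1) ^ 2 / κ ≤ L ^ 2 * ((J : ℝ) + 1) ^ 2 / (c₀ * s) := by
        refine div_le_div_of_nonneg_left (by positivity) (by positivity) ?_
        rw [hκ]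
        exact mul_le_mul_of_nonneg_right hcc (by linarith)
      have h2 : L ^ 2 * ((J : ℝ) + 1) ^ 2 / (c₀ * s) = L ^ 2 * ((J : ℝ) + 1) ^ 2 / c₀ * (1 / s) := by
        field_simp
      have h3 : 1 / (s : ℝ) ≤ 2 * (1 / (1 + s)) := by
        rw [mul_one_div, div_le_div_iff₀ (by linarith) (by linarith)]
        linarith
      have h4 : 0 ≤ L ^ 2 * ((J : ℝ) + 1) ^ 2 / c₀ := by positivity
      nlinarith [mul_le_mul_of_nonneg_left h3 h4]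
    nlinarith [sq_nonneg (A - B)]
  unfold nn
  have hsq : ∑ n ∈ Icc (1 : ℕ) (2 ^ J), |w n| ^ 2 ≤ L ^ 2 / δ * (2 * ((J : ℝ) + 1)) := by
    have h1 : ∀ n ∈ Icc (1 : ℕ) (2 ^ J), |w n| ^ 2 ≤ L ^ 2 / δ * (1 / (1 + |(n : ℝ) - ⌊T / c⌋₊|)) := by
      intro n _
      have h2 := near_bd c₀ c T hc₀p hcc hT0 n
      rw [← hδ] at h2
      have h3 : |w n| ^ 2 ≤ (L / √(1 + |T - 2 * Real.pi * n * y|)) ^ 2 :=
        pow_le_pow_left₀ (abs_nonneg _) (hw n) 2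
      rw [div_pow, Real.sq_sqrt (by positivity), show 2 * Real.pi * n * y = c * n by
        rw [hc]; ring] at h3
      refine h3.trans ?_
      have h4 : 0 < δ * (1 + |(n : ℝ) - ⌊T / c⌋₊|) := by positivity
      calc L ^ 2 / (1 + |T - c * n|) ≤ L ^ 2 / (δ * (1 + |(n : ℝ) - ⌊T / c⌋₊|)) :=
            div_le_div_of_nonneg_left (by positivity) h4 h2
        _ = L ^ 2 / δ * (1 / (1 + |(n : ℝ) - ⌊T / c⌋₊|)) := by field_simp
    refine (sum_le_sum h1).trans ?_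
    rw [← mul_sum]
    exact mul_le_mul_of_nonneg_left (hsum J _) (by positivity)
  calc ∑ s ∈ (Icc (1 : ℕ) (2 ^ J)).filter Squarefree, (∑ r ∈ Icc (1 : ℕ) (2 ^ J), |w (r ^ 2 * s)|) ^ 2
      ≤ ∑ s ∈ (Icc (1 : ℕ) (2 ^ J)).filter Squarefree, (4 * ∑ r ∈ Icc (1 : ℕ) (2 ^ J), |w (r ^ 2 * s)| ^ 2 +
        144 * (L ^ 2 * ((J : ℝ) + 1) ^ 2 / c₀) * (1 / (1 + |(s : ℝ) - (0 : ℕ)|))) := sum_le_sum hin
    _ = 4 * ∑ s ∈ (Icc (1 : ℕ) (2 ^ J)).filter Squarefree, ∑ r ∈ Icc (1 : ℕ) (2 ^ J), |w (r ^ 2 * s)| ^ 2 +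
        144 * (L ^ 2 * ((J : ℝ) + 1) ^ 2 / c₀) *
          ∑ s ∈ (Icc (1 : ℕ) (2 ^ J)).filter Squarefree, 1 / (1 + |(s : ℝ) - (0 : ℕ)|) := by
        rw [sum_add_distrib, mul_sum, mul_sum]
    _ ≤ 4 * (L ^ 2 / δ * (2 * ((J : ℝ) + 1))) + 144 * (L ^ 2 * ((J : ℝ) + 1) ^ 2 / c₀) *
          (2 * ((J : ℝ) + 1)) := by
        refine add_le_add (mul_le_mul_of_nonneg_left ((pairs _ w hw0).trans hsq) (by norm_num))
          (mul_le_mul_of_nonneg_left ?_ (by positivity))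
        exact (sum_le_sum_of_subset_of_nonneg (filter_subset _ _) fun _ _ _ => by positivity).trans
          (hsum J 0)
    _ ≤ (8 / δ + 288 / c₀) * L ^ 2 * ((J : ℝ) + 1) ^ 3 := by
        have h1 : (J : ℝ) + 1 ≤ ((J : ℝ) + 1) ^ 3 := le_self_pow₀ hJ1 (by norm_num)
        have h2 : 8 * (L ^ 2 / δ) * ((J : ℝ) + 1) ≤ 8 * (L ^ 2 / δ) * ((J : ℝ) + 1) ^ 3 :=
          mul_le_mul_of_nonneg_left h1 (by positivity)
        calc 4 * (L ^ 2 / δ * (2 * ((J : ℝ) + 1))) + 144 * (L ^ 2 * ((J : ℝ) + 1) ^ 2 / c₀) *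
              (2 * ((J : ℝ) + 1))
            = 8 * (L ^ 2 / δ) * ((J : ℝ) + 1) + 288 / c₀ * L ^ 2 * ((J : ℝ) + 1) ^ 3 := by ring
          _ ≤ 8 * (L ^ 2 / δ) * ((J : ℝ) + 1) ^ 3 + 288 / c₀ * L ^ 2 * ((J : ℝ) + 1) ^ 3 := by
              linarith
          _ = (8 / δ + 288 / c₀) * L ^ 2 * ((J : ℝ) + 1) ^ 3 := by ring

end Pool.Agent.Q65.L2

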