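import Pool.Agent.Q255.L2.StmN
import Pool.Agent.Q13.EP.REC

/-!
# Project L2N (helper255), job MA: all moments over all intervals, almost surely
-/

set_option autoImplicit false

namespace Pool.Agent.Q65.L2N

open Filter Topology MeasureTheory Finset
open Pool.Agent.Q255.IC Pool.Agent.Q255.IR Pool.Agent.Q255.EP Pool.Agent.Q255.L2
open scoped ENNReal

/-- the grid points of the level `J` -/
noncomputable def pt (L J : ℕ) (a : ℤ) : ℝ := (a : ℝ) / 2 ^ (L * J)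

open Classical in
/-- the coefficient functions of the level `J'` -/
noncomputable def WW (k J' : ℕ) : Finset (ℕ → ℝ) :=
  ((Icc 1 (2 ^ (J' / (2 * k)))) ×ˢ
    ((Icc (-((2 : ℤ) ^ ((10 * k + 1) * (J' / (2 * k))))) (2 ^ ((10 * k + 1) * (J' / (2 * k))))) ×ˢ
     (Icc (-((2 : ℤ) ^ ((10 * k + 1) * (J' / (2 * k))))) (2 ^ ((10 * k + 1) * (J' / (2 * k)))))).filter
      fun p => p.1 ≤ p.2).image
    fun q => wm k q.1 (pt (10 * k) (J' / (2 * k)) q.2.1) (pt (10 * k) (J' / (2 * k)) q.2.2)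

theorem pt_mono (L J : ℕ) {a b : ℤ} (h : a ≤ b) : pt L J a ≤ pt L J b := by
  unfold pt
  have : (a : ℝ) ≤ b := by exact_mod_cast h
  gcongr

theorem WW_zero (h2 : S_MW) (k : ℕ) (hk : 1 ≤ k) (J' : ℕ) :
    ∀ w ∈ WW k J', ∀ m, 2 ^ J' < m → w m = 0 := by
  classical
  intro w hw m hm
  obtain ⟨C, -, hC⟩ := h2 k 1 hk one_pos
  unfold WW at hw
  rw [mem_image] at hw
  obtain ⟨⟨N, a, b⟩, hq, rfl⟩ := hw
  rw [mem_product, mem_filter] at hq
  obtain ⟨hN, -, hab⟩ := hq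
  rw [mem_Icc] at hN
  refine (hC N _ _ hN.1 (pt_mono _ _ hab)).2.1 m (lt_of_le_of_lt ?_ hm)
  calc N ^ (2 * k) ≤ (2 ^ (J' / (2 * k))) ^ (2 * k) := Nat.pow_le_pow_left hN.2 _
    _ = 2 ^ (J' / (2 * k) * (2 * k)) := by rw [← pow_mul]
    _ ≤ 2 ^ J' := Nat.pow_le_pow_right two_pos (Nat.div_mul_le_self _ _)

theorem WW_card (k : ℕ) (J' : ℕ) :
    ((WW k J').card : ℝ) ≤ Real.exp (((20 * k + 6 : ℕ) : ℝ) * Real.log 2 * ((J' : ℝ) + 1)) := by
  classical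
  set J := J' / (2 * k) with hJ
  have hJJ : J ≤ J' := Nat.div_le_self _ _
  have h1 : (WW k J').card ≤ 2 ^ J * ((2 * 2 ^ ((10 * k + 1) * J) + 1) * (2 * 2 ^ ((10 * k + 1) * J) + 1)) := by
    unfold WW
    refine card_image_le.trans ?_
    rw [card_product, Nat.card_Icc, Nat.add_sub_cancel]
    refine Nat.mul_le_mul le_rfl ((card_filter_le _ _).trans ?_)
    rw [card_product, Int.card_Icc]
    have h2 : ((2 : ℤ) ^ ((10 * k + 1) * J) + 1 - -(2 : ℤ) ^ ((10 * k + 1) * J)).toNat =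
        2 * 2 ^ ((10 * k + 1) * J) + 1 := by
      have : (2 : ℤ) ^ ((10 * k + 1) * J) + 1 - -(2 : ℤ) ^ ((10 * k + 1) * J) =
          ((2 * 2 ^ ((10 * k + 1) * J) + 1 : ℕ) : ℤ) := by push_cast; ring
      rw [this, Int.toNat_natCast]
    rw [h2]
  have h3 : 2 * 2 ^ ((10 * k + 1) * J) + 1 ≤ 2 ^ ((10 * k + 1) * J + 2) := by
    have : 1 ≤ 2 ^ ((10 * k + 1) * J) := Nat.one_le_two_pow
    rw [pow_add]
    omega
  have h4 : (WW k J').card ≤ 2 ^ ((20 * k + 6) * (J' + 1)) := by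
    refine h1.trans ?_
    calc 2 ^ J * ((2 * 2 ^ ((10 * k + 1) * J) + 1) * (2 * 2 ^ ((10 * k + 1) * J) + 1)) ≤
          2 ^ J * (2 ^ ((10 * k + 1) * J + 2) * 2 ^ ((10 * k + 1) * J + 2)) :=
          Nat.mul_le_mul le_rfl (Nat.mul_le_mul h3 h3)
      _ = 2 ^ ((20 * k + 3) * J + 4) := by
          rw [← pow_add, ← pow_add]
          congr 1
          ring
      _ ≤ 2 ^ ((20 * k + 6) * (J' + 1)) := by
          refine Nat.pow_le_pow_right two_pos ?_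
          have h5 : (20 * k + 3) * J ≤ (20 * k + 6) * J' := Nat.mul_le_mul (by omega) hJJ
          have h6 : (20 * k + 6) * (J' + 1) = (20 * k + 6) * J' + (20 * k + 6) := by ring
          omega
  have h5 : ((WW k J').card : ℝ) ≤ ((2 ^ ((20 * k + 6) * (J' + 1)) : ℕ) : ℝ) := by exact_mod_cast h4
  refine h5.trans (le_of_eq ?_)
  rw [Nat.cast_pow, Nat.cast_ofNat, ← Real.rpow_natCast, Real.rpow_def_of_pos two_pos]
  congr 1
  push_cast
  ring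

theorem cm_one_or (ω : ℕ → Bool) (n : ℕ) : cm ω n = 1 ∨ cm ω n = -1 := by
  have h := Pool.Agent.Q13.EP.cm_sq ω n
  have h2 : (cm ω n - 1) * (cm ω n + 1) = 0 := by linear_combination h
  rcases mul_eq_zero.1 h2 with h3 | h3
  · exact Or.inl (by linarith)
  · exact Or.inr (by linarith)

theorem abs_cm (ω : ℕ → Bool) (n : ℕ) : |cm ω n| = 1 := by
  rcases cm_one_or ω n with h | h <;> rw [h] <;> norm_num

theorem ma_aux (h : S_ENG2) (h1 : S_ME) (h2 : S_MW) (ν : Measure (ℕ → Bool))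
    [IsProbabilityMeasure ν] (hν : Sml ν) (k : ℕ) (hk : 1 ≤ k) :
    ∀ᵐ ω ∂ν, ∀ ε : ℝ, 0 < ε → ∃ C : ℝ, ∀ J, MM k ε C J (cm ω) := by
  classical
  have hν' : ∀ ε : ℝ, 0 < ε → ∀ᶠ x : ℕ in atTop,
      D ν (Nat.primeCounting x) ≤ (x : ℝ) ^ ((0 : ℝ) + ε) := by
    intro ε hε
    simpa only [zero_add] using hν ε hε
  filter_upwards [h ν 0 le_rfl zero_le_one hν' (WW k) (((20 * k + 6 : ℕ) : ℝ) * Real.log 2)
    (WW_zero h2 k hk) (WW_card k)] with ω hω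
  intro ε hε
  have hk0 : (0 : ℝ) < k := by exact_mod_cast hk
  obtain ⟨C1, hC1⟩ := hω (ε / (4 * k)) (by positivity)
  obtain ⟨CE, hCE, hE⟩ := h1 k ε hk hε
  obtain ⟨CW, hCW, hW⟩ := h2 k (ε / 2) hk (by positivity)
  refine ⟨CE + 2 * CW + |C1| * √(CW * 2 ^ (ε + 1)), ?_⟩
  intro J N T₁ T₂ hN hNJ hT₁ hT hT₂
  -- the grid points
  set B : ℝ := 2 ^ (10 * k * J) with hB
  have hB0 : 0 < B := by positivity
  have hB1 : 1 ≤ B := one_le_pow₀ (by norm_num)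
  set a₁ : ℤ := ⌊T₁ * B⌋ with ha₁
  set a₂ : ℤ := ⌊T₂ * B⌋ with ha₂
  have hTB : T₁ * B ≤ T₂ * B := mul_le_mul_of_nonneg_right hT hB0.le
  have haa : a₁ ≤ a₂ := Int.floor_le_floor hTB
  set P₁ := pt (10 * k) J a₁ with hP₁
  set P₂ := pt (10 * k) J a₂ with hP₂
  have hPP : P₁ ≤ P₂ := pt_mono _ _ haa
  have hdist : ∀ T : ℝ, |T - pt (10 * k) J ⌊T * B⌋| ≤ 1 / B := by
    intro T
    have e1 : pt (10 * k) J ⌊T * B⌋ = (⌊T * B⌋ : ℝ) / B := rfl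
    rw [e1]
    have e2 : T - (⌊T * B⌋ : ℝ) / B = (T * B - ⌊T * B⌋) / B := by
      field_simp
    rw [e2, abs_div, abs_of_pos hB0]
    have e3 := Int.floor_le (T * B)
    have e4 := Int.lt_floor_add_one (T * B)
    gcongr
    rw [abs_le]
    constructor <;> linarith
  have hd₁ : |T₁ - P₁| ≤ 1 / B := hdist T₁
  have hd₂ : |T₂ - P₂| ≤ 1 / B := hdist T₂
  have hB1' : 1 / B ≤ 1 := by
    rw [div_le_one hB0]
    exact hB1
  -- the function is in the set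
  have hdiv : 2 * k * J / (2 * k) = J := Nat.mul_div_cancel_left J (by omega)
  have hBB : B * 2 ^ J = 2 ^ ((10 * k + 1) * J) := by
    rw [hB, ← pow_add]
    congr 1
    ring
  have hlow : -((2 : ℤ) ^ ((10 * k + 1) * J)) ≤ a₁ := by
    rw [ha₁, Int.le_floor]
    push_cast
    rw [← hBB]
    nlinarith
  have hupp : a₂ ≤ (2 : ℤ) ^ ((10 * k + 1) * J) := by
    have e1 : (a₂ : ℝ) ≤ T₂ * B := Int.floor_le _
    have e2 : T₂ * B ≤ 2 ^ J * B := mul_le_mul_of_nonneg_right hT₂ hB0.le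
    have e3 : (a₂ : ℝ) ≤ ((2 : ℤ) ^ ((10 * k + 1) * J) : ℤ) := by
      push_cast
      rw [← hBB]
      linarith
    exact_mod_cast e3
  have hmem : wm k N P₁ P₂ ∈ WW k (2 * k * J) := by
    unfold WW
    rw [hdiv, mem_image]
    refine ⟨(N, a₁, a₂), ?_, rfl⟩
    rw [mem_product, mem_filter, mem_product, mem_Icc, mem_Icc, mem_Icc]
    exact ⟨⟨hN, hNJ⟩, ⟨⟨hlow, haa.trans hupp⟩, hlow.trans haa, hupp⟩, haa⟩
  have K0 := hE N T₁ T₂ (cm ω) hN hT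
    (fun m n _ hm hn => Pool.Agent.Q13.EP.cm_mul ω (by omega) (by omega))
    (fun n _ _ => cm_one_or ω n)
  obtain ⟨W1, W2, W3⟩ := hW N T₁ T₂ hN hT
  obtain ⟨V1, V2, V3⟩ := hW N P₁ P₂ hN hPP
  have K1 := hC1 (2 * k * J) _ hmem
  have hN1 : (1 : ℝ) ≤ N := by exact_mod_cast hN
  have hNJ' : (N : ℝ) ≤ 2 ^ J := by exact_mod_cast hNJ
  have hNp : N ^ (2 * k) ≤ 2 ^ (2 * k * J) := by
    calc N ^ (2 * k) ≤ (2 ^ J) ^ (2 * k) := Nat.pow_le_pow_left hNJ _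
      _ = 2 ^ (2 * k * J) := by
        rw [← pow_mul]
        congr 1
        ring
  have hext : ∑ l ∈ Icc 1 (N ^ (2 * k)), wm k N T₁ T₂ l * cm ω l =
      ∑ l ∈ Icc 1 (2 ^ (2 * k * J)), wm k N T₁ T₂ l * cm ω l := by
    refine sum_subset (Icc_subset_Icc le_rfl hNp) fun l hl hl2 => ?_
    rw [mem_Icc] at hl hl2
    rw [W2 l (by omega), zero_mul]
  have K2 : |∑ l ∈ Icc 1 (2 ^ (2 * k * J)), wm k N T₁ T₂ l * cm ω l -
      ∑ l ∈ Icc 1 (2 ^ (2 * k * J)), wm k N P₁ P₂ l * cm ω l| ≤ 2 * CW := by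
    rw [← sum_sub_distrib]
    refine (abs_sum_le_sum_abs _ _).trans ?_
    have e1 : ∀ l ∈ Icc 1 (2 ^ (2 * k * J)), |wm k N T₁ T₂ l * cm ω l - wm k N P₁ P₂ l * cm ω l| ≤
        CW * (2 ^ J) ^ (8 * k) * (1 / B + 1 / B) := by
      intro l _
      rw [← sub_mul, abs_mul, abs_cm, mul_one]
      refine (W3 P₁ P₂ l hPP).trans ?_
      gcongr
    refine (sum_le_sum e1).trans (le_of_eq ?_)
    rw [sum_const, nsmul_eq_mul, Nat.card_Icc, Nat.add_sub_cancel]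
    push_cast
    have e2 : (2 : ℝ) ^ (2 * k * J) * (2 ^ J) ^ (8 * k) = B := by
      rw [hB, ← pow_mul, ← pow_add]
      congr 1
      ring
    calc (2 : ℝ) ^ (2 * k * J) * (CW * (2 ^ J) ^ (8 * k) * (1 / B + 1 / B)) =
          (2 : ℝ) ^ (2 * k * J) * (2 ^ J) ^ (8 * k) * (CW * (1 / B + 1 / B)) := by ring
      _ = 2 * CW := by
          rw [e2]
          field_simp
          norm_num
  -- the norm
  set D₀ := T₂ - T₁ with hD₀
  have hD0 : 0 ≤ D₀ := by linarith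
  have hD1 : D₀ ≤ 2 ^ (J + 1) := by
    rw [hD₀, pow_succ]
    linarith
  have hPD : P₂ - P₁ ≤ D₀ + 1 := by
    have e1 : P₂ ≤ T₂ := by
      have e1 : P₂ = (a₂ : ℝ) / B := rfl
      rw [e1, div_le_iff₀ hB0]
      exact Int.floor_le _
    have e2 := (abs_le.1 hd₁).2
    linarith
  have K3 : nn (2 ^ (2 * k * J)) (wm k N P₁ P₂) ≤ CW * 2 ^ (ε + 1) * (2 : ℝ) ^ (ε * J) * (1 + D₀) := by
    refine (V1 _).trans ?_
    have e0 : 0 ≤ P₂ - P₁ := by linarith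
    have e1 : (N : ℝ) * (1 + (P₂ - P₁)) ≤ 2 ^ (2 * J + 2) := by
      have e2 : 1 + (P₂ - P₁) ≤ 2 ^ (J + 2) := by
        have e3 : (1 : ℝ) ≤ 2 ^ J := one_le_pow₀ (by norm_num)
        have e4 : (2 : ℝ) ^ (J + 2) = 4 * 2 ^ J := by ring
        have e5 : (2 : ℝ) ^ (J + 1) = 2 * 2 ^ J := by ring
        rw [e4]
        rw [e5] at hD1
        linarith
      calc (N : ℝ) * (1 + (P₂ - P₁)) ≤ 2 ^ J * 2 ^ (J + 2) :=
            mul_le_mul hNJ' e2 (by linarith) (by positivity)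
        _ = 2 ^ (2 * J + 2) := by
            rw [← pow_add]
            congr 1
            ring
    have e2 : ((N : ℝ) * (1 + (P₂ - P₁))) ^ (ε / 2) ≤ 2 ^ ε * (2 : ℝ) ^ (ε * J) := by
      calc ((N : ℝ) * (1 + (P₂ - P₁))) ^ (ε / 2) ≤ ((2 : ℝ) ^ (2 * J + 2)) ^ (ε / 2) :=
            Real.rpow_le_rpow (by positivity) e1 (by positivity)
        _ = 2 ^ ε * (2 : ℝ) ^ (ε * J) := by
            rw [← Real.rpow_natCast, ← Real.rpow_mul two_pos.le, ← Real.rpow_add two_pos]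
            congr 1
            push_cast
            ring
    have e3 : 1 + (P₂ - P₁) ≤ 2 * (1 + D₀) := by linarith
    calc CW * ((N : ℝ) * (1 + (P₂ - P₁))) ^ (ε / 2) * (1 + (P₂ - P₁)) ≤
          CW * (2 ^ ε * (2 : ℝ) ^ (ε * J)) * (2 * (1 + D₀)) := by gcongr
      _ = CW * 2 ^ (ε + 1) * (2 : ℝ) ^ (ε * J) * (1 + D₀) := by
          rw [Real.rpow_add two_pos, Real.rpow_one]
          ring
  have K4 : |∑ l ∈ Icc 1 (2 ^ (2 * k * J)), wm k N P₁ P₂ l * cm ω l| ≤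
      |C1| * √(CW * 2 ^ (ε + 1)) * (2 : ℝ) ^ (ε * J) * √(1 + D₀) := by
    refine K1.trans ?_
    have e1 : (2 : ℝ) ^ ((0 + ε / (4 * k)) * ((2 * k * J : ℕ) : ℝ)) = (2 : ℝ) ^ (ε / 2 * J) := by
      congr 1
      push_cast
      field_simp
      ring
    have e2 : √(nn (2 ^ (2 * k * J)) (wm k N P₁ P₂)) ≤
        √(CW * 2 ^ (ε + 1)) * (2 : ℝ) ^ (ε / 2 * J) * √(1 + D₀) := by
      refine (Real.sqrt_le_sqrt K3).trans (le_of_eq ?_)
      rw [Real.sqrt_mul (by positivity), Real.sqrt_mul (by positivity)]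
      congr 2
      rw [Real.sqrt_eq_rpow, ← Real.rpow_mul two_pos.le]
      congr 1
      ring
    rw [e1]
    calc C1 * (2 : ℝ) ^ (ε / 2 * J) * √(nn (2 ^ (2 * k * J)) (wm k N P₁ P₂)) ≤
          |C1| * (2 : ℝ) ^ (ε / 2 * J) * (√(CW * 2 ^ (ε + 1)) * (2 : ℝ) ^ (ε / 2 * J) * √(1 + D₀)) := by
          gcongr
          exact le_abs_self C1
      _ = |C1| * √(CW * 2 ^ (ε + 1)) * ((2 : ℝ) ^ (ε / 2 * J) * (2 : ℝ) ^ (ε / 2 * J)) * √(1 + D₀) := by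
          ring
      _ = _ := by
          rw [← Real.rpow_add two_pos]
          congr 3
          ring
  have hs1 : 1 ≤ √(1 + D₀) := by
    rw [Real.one_le_sqrt]
    linarith
  have hp1 : 1 ≤ (2 : ℝ) ^ (ε * J) := Real.one_le_rpow (by norm_num) (by positivity)
  have hps : 1 ≤ (2 : ℝ) ^ (ε * J) * √(1 + D₀) := one_le_mul_of_one_le_of_one_le hp1 hs1
  have K5 : CE * (N : ℝ) ^ ε ≤ CE * ((2 : ℝ) ^ (ε * J) * √(1 + D₀)) := by
    refine mul_le_mul_of_nonneg_left ?_ hCE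
    calc (N : ℝ) ^ ε ≤ ((2 : ℝ) ^ J) ^ ε := Real.rpow_le_rpow (by positivity) hNJ' hε.le
      _ = (2 : ℝ) ^ (ε * J) := by
          rw [← Real.rpow_natCast, ← Real.rpow_mul two_pos.le, mul_comm]
      _ ≤ (2 : ℝ) ^ (ε * J) * √(1 + D₀) := le_mul_of_one_le_right (by positivity) hs1
  have K6 : 2 * CW ≤ 2 * CW * ((2 : ℝ) ^ (ε * J) * √(1 + D₀)) :=
    le_mul_of_one_le_right (by positivity) hps
  set M := ∫ t in T₁..T₂, ‖ZN (cm ω) N t‖ ^ (2 * k) with hM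
  set S₁ := ∑ l ∈ Icc 1 (2 ^ (2 * k * J)), wm k N T₁ T₂ l * cm ω l with hS₁
  set S₂ := ∑ l ∈ Icc 1 (2 ^ (2 * k * J)), wm k N P₁ P₂ l * cm ω l with hS₂
  rw [hext] at K0
  have e1 : M - D₀ * dia k N = (M - (D₀ * dia k N + S₁)) + (S₁ - S₂) + S₂ := by ring
  rw [e1]
  calc |(M - (D₀ * dia k N + S₁)) + (S₁ - S₂) + S₂| ≤
        |M - (D₀ * dia k N + S₁)| + |S₁ - S₂| + |S₂| := abs_add_three _ _ _
    _ ≤ CE * ((2 : ℝ) ^ (ε * J) * √(1 + D₀)) + 2 * CW * ((2 : ℝ) ^ (ε * J) * √(1 + D₀)) +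
          |C1| * √(CW * 2 ^ (ε + 1)) * (2 : ℝ) ^ (ε * J) * √(1 + D₀) :=
        add_le_add (add_le_add (K0.trans K5) (K2.trans K6)) K4
    _ = _ := by ring

/-- all moments over all intervals, almost surely -/
theorem ma (h : S_ENG2) (h1 : S_ME) (h2 : S_MW) : S_MA := by
  intro ν _ hν
  rw [ae_all_iff]
  intro k
  rcases Nat.lt_or_ge k 1 with hk | hk
  · exact Eventually.of_forall fun ω ε h => absurd h (by omega)
  filter_upwards [ma_aux h h1 h2 ν hν k hk] with ω hω ε _ hε using hω ε hε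

end Pool.Agent.Q65.L2N

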