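import Pool.Agent.Q65.L2.SNa
import Pool.Agent.Q13.EP.REC

/-!
# The sup norm of random twists
-/

set_option autoImplicit false

namespace Pool.Agent.Q65.L2

open Filter Topology MeasureTheory Finset
open Pool.Agent.Q255.IC Pool.Agent.Q255.IR Pool.Agent.Q255.EP Pool.Agent.Q255.L2

/-- truncation -/
noncomputable def trw (X : ℕ) (g : ℕ → ℝ) (n : ℕ) : ℝ := if 1 ≤ n ∧ n ≤ X then g n else 0

theorem poly_exp (ε : ℝ) (hε : 0 < ε) :
    ∃ K : ℝ, 0 ≤ K ∧ ∀ J : ℕ, ((J : ℝ) + 1) ^ 2 ≤ K * (2 : ℝ) ^ (ε * J) := by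
  have hl : 0 < Real.log 2 := Real.log_pos (by norm_num)
  set c := ε * Real.log 2 / 2 with hc
  have hc0 : 0 < c := by positivity
  refine ⟨2 ^ ε / c ^ 2, by positivity, fun J => ?_⟩
  have h1 : ((J : ℝ) + 1) * c ≤ Real.exp (((J : ℝ) + 1) * c) := by
    linarith [Real.add_one_le_exp (((J : ℝ) + 1) * c)]
  have h2 : (((J : ℝ) + 1) * c) ^ 2 ≤ Real.exp (((J : ℝ) + 1) * c) ^ 2 :=
    pow_le_pow_left₀ (by positivity) h1 2
  have h3 : Real.exp (((J : ℝ) + 1) * c) ^ 2 = (2 : ℝ) ^ ε * (2 : ℝ) ^ (ε * J) := by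
    rw [← Real.exp_nat_mul, ← Real.rpow_add (by norm_num), Real.rpow_def_of_pos (by norm_num)]
    congr 1
    rw [hc]
    push_cast
    ring
  rw [h3, mul_pow] at h2
  rw [div_mul_eq_mul_div, le_div_iff₀ (by positivity)]
  exact h2

theorem card_bd (A : ℝ) (m : ℕ) : ∃ A' : ℝ, ∀ J N : ℕ, (N : ℝ) ≤ A * ((2 : ℝ) ^ J) ^ A →
    ((N * ((32 ^ J + 1) * (((m + 1) * 32 ^ J + 1) * 2)) : ℕ) : ℝ) ≤
      Real.exp (A' * ((J : ℝ) + 1)) := by
  set B := max A 1 with hB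
  have hB1 : 1 ≤ B := le_max_right _ _
  have hBA : A ≤ B := le_max_left _ _
  have hm : (0 : ℝ) ≤ m := Nat.cast_nonneg m
  have hl1 : 1 ≤ 4 * ((m : ℝ) + 2) * B := by nlinarith
  set l := Real.log (4 * ((m : ℝ) + 2) * B) with hl
  have hl0 : 0 ≤ l := Real.log_nonneg hl1
  have hlog2 : 0 < Real.log 2 := Real.log_pos (by norm_num)
  have hlog32 : 0 < Real.log 32 := Real.log_pos (by norm_num)
  refine ⟨l + B * Real.log 2 + 2 * Real.log 32, fun J N hN => ?_⟩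
  have hJ : (0 : ℝ) ≤ J := Nat.cast_nonneg J
  have h2J : (1 : ℝ) ≤ 2 ^ J := one_le_pow₀ (by norm_num)
  have h32J : (1 : ℝ) ≤ 32 ^ J := one_le_pow₀ (by norm_num)
  have h1 : (N : ℝ) ≤ B * ((2 : ℝ) ^ J) ^ B := by
    refine hN.trans (mul_le_mul hBA (Real.rpow_le_rpow_of_exponent_le h2J hBA) (by positivity)
      (by linarith))
  have h2 : ((2 : ℝ) ^ J) ^ B = Real.exp (B * Real.log 2 * J) := by
    rw [Real.rpow_def_of_pos (by positivity), Real.log_pow]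
    congr 1
    ring
  have h3 : ((32 : ℝ) ^ J) = Real.exp (Real.log 32 * J) := by
    rw [mul_comm, Real.exp_nat_mul, Real.exp_log (by norm_num)]
  have h4 : 4 * ((m : ℝ) + 2) * B = Real.exp l := by
    rw [hl, Real.exp_log (by linarith)]
  push_cast
  calc (N : ℝ) * ((32 ^ J + 1) * (((m + 1) * 32 ^ J + 1) * 2))
      ≤ (B * ((2 : ℝ) ^ J) ^ B) * ((2 * 32 ^ J) * (((m + 2) * 32 ^ J) * 2)) := by
        refine mul_le_mul h1 (mul_le_mul (by linarith) (mul_le_mul_of_nonneg_right (by linarith)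
          (by norm_num)) (by positivity) (by positivity)) (by positivity) (by positivity)
    _ = 4 * ((m : ℝ) + 2) * B * ((2 : ℝ) ^ J) ^ B * (32 ^ J * 32 ^ J) := by ring
    _ = Real.exp (l + B * Real.log 2 * J + (Real.log 32 * J + Real.log 32 * J)) := by
        rw [h4, h2, h3, ← Real.exp_add, ← Real.exp_add, ← Real.exp_add]
    _ ≤ Real.exp ((l + B * Real.log 2 + 2 * Real.log 32) * ((J : ℝ) + 1)) := by
        rw [Real.exp_le_exp]
        have h5 : 0 ≤ l * J := by positivity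
        have h6 : 0 ≤ B * Real.log 2 := by positivity
        nlinarith

theorem sum_range_Icc (F : ℕ → ℝ) (N : ℕ) :
    ∑ n ∈ range N, F (n + 1) = ∑ n ∈ Icc 1 N, F n := by
  induction N with
  | zero => simp
  | succ N ih => rw [sum_range_succ, ih, sum_Icc_succ_top (by omega)]

theorem exists_scale (T : ℝ) (hT : 1 ≤ T) : ∃ J : ℕ, T ^ 2 ≤ 2 ^ J ∧ (2 : ℝ) ^ J ≤ 2 * T ^ 2 := by
  obtain ⟨n, h1, h2⟩ := exists_nat_pow_near (one_le_pow₀ hT : 1 ≤ T ^ 2) (by norm_num : (1 : ℝ) < 2)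
  refine ⟨n + 1, h2.le, ?_⟩
  rw [pow_succ]
  linarith

theorem sn (h : S_ENG2) (h1 : S_KODE) (h2 : S_KBB) (h3 : S_KN) : S_SN := by
  classical
  intro ν _ hD ι T a A hT hfin ha
  let W : ℕ → ℕ → Finset (ℕ → ℝ) := fun m J =>
    Finset.image (fun q : ι × ℕ × ℕ × Bool =>
      trw (2 ^ J) (tm (T q.1) (a q.1) q.2.2.2 ((q.2.1 : ℝ) / 32 ^ J) ((q.2.2.1 : ℝ) / 32 ^ J)))
      (((hfin (2 ^ J) (one_le_pow₀ (by norm_num))).1.toFinset) ×ˢ (range (32 ^ J + 1) ×ˢ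
        (range ((m + 1) * 32 ^ J + 1) ×ˢ (univ : Finset Bool))))
  have hmain : ∀ m : ℕ, ∀ᵐ ω ∂ν, ∀ ε : ℝ, 0 < ε → ∃ C : ℝ, ∀ J, ∀ w ∈ W m J,
      |∑ n ∈ Finset.Icc 1 (2 ^ J), w n * cm ω n| ≤
        C * (2 : ℝ) ^ ((0 + ε) * J) * √(nn (2 ^ J) w) := by
    intro m
    obtain ⟨A', hA'⟩ := card_bd A m
    refine h ν 0 le_rfl zero_le_one (by simpa using hD) (W m) A' ?_ ?_
    · intro J w hw n hn
      obtain ⟨q, _, rfl⟩ := Finset.mem_image.1 hw
      unfold trw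
      rw [if_neg (by omega)]
    · intro J
      have hN := (hfin (2 ^ J) (one_le_pow₀ (by norm_num))).2
      rw [Set.ncard_eq_toFinset_card _ (hfin (2 ^ J) (one_le_pow₀ (by norm_num))).1] at hN
      refine le_trans ?_ (hA' J _ hN)
      refine Nat.cast_le.2 (Finset.card_image_le.trans (le_of_eq ?_))
      rw [card_product, card_product, card_product, card_range, card_range, card_univ,
        Fintype.card_bool]
  rw [← ae_all_iff] at hmain
  filter_upwards [hmain] with ω hω y₀ y₁ hy₀ hy01 ε hε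
  suffices H : ∃ C : ℝ, ∀ (i : ι) (b : Bool) (x y : ℝ), y₀ ≤ y → y ≤ y₁ →
      |∑' n : ℕ, tm (T i) (a i) b x y (n + 1) * cm ω (n + 1)| ≤ C * T i ^ ε by
    obtain ⟨C, hC⟩ := H
    refine ⟨C, fun i x y hy hy' => ⟨?_, ?_⟩⟩
    · rw [phc_eq]
      exact hC i true x y hy hy'
    · rw [phs_eq]
      exact hC i false x y hy hy'
  have hpi := Real.pi_pos
  have hε8 : 0 < ε / 8 := by positivity
  obtain ⟨C₂, hC₂⟩ := hω ⌈y₁⌉₊ (ε / 8) hε8
  obtain ⟨K, hK0, hK⟩ := poly_exp (ε / 8) hε8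
  obtain ⟨CB, hCB0, hamp⟩ := amp h2
  obtain ⟨CN, hCN0, hKN⟩ := h3 y₀ (y₁ + 1) hy₀ (by linarith)
  obtain ⟨C₁, hC₁⟩ := ha 1 one_pos
  obtain ⟨C₄, hC₄⟩ := ha (ε / 8) hε8
  obtain ⟨M, hM0, hM⟩ := tm_tail h1 y₀ (y₁ + 1) |C₁| hy₀ (abs_nonneg _)
  set hh : ℕ → ℝ := fun n => (n : ℝ) ^ 2 * Real.exp (-(Real.pi * y₀) * n) with hhh
  have hhs : Summable hh := Real.summable_pow_mul_exp_neg_nat_mul 2 (by positivity)
  have hh0 : ∀ n, 0 ≤ hh n := fun n => by positivity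
  set K₂ := CB * (1 / √y₀ + √(y₁ + 1) / y₀ + √(y₁ + 1) * (2 * Real.pi)) with hK₂
  have hK₂0 : 0 ≤ K₂ := by positivity
  set C₃ := |C₂| * (√CN * (√(y₁ + 1) * |C₄| * CB) * K) with hC₃
  have hC₃0 : 0 ≤ C₃ := by positivity
  -- the net
  have hnet : ∀ (i : ι) (J : ℕ) (b : Bool) (p q : ℕ), T i ≤ 2 ^ J → p < 32 ^ J + 1 →
      q < (⌈y₁⌉₊ + 1) * 32 ^ J + 1 → y₀ ≤ (q : ℝ) / 32 ^ J → (q : ℝ) / 32 ^ J ≤ y₁ + 1 →
      |∑ n ∈ Icc 1 (2 ^ J), tm (T i) (a i) b ((p : ℝ) / 32 ^ J) ((q : ℝ) / 32 ^ J) n * cm ω n| ≤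
        C₃ * ((2 : ℝ) ^ J) ^ (ε / 2) := by
    intro i J b p q hTJ hp hq hq0 hq1
    have hmem : trw (2 ^ J) (tm (T i) (a i) b ((p : ℝ) / 32 ^ J) ((q : ℝ) / 32 ^ J)) ∈
        W ⌈y₁⌉₊ J := by
      refine Finset.mem_image.2 ⟨(i, p, q, b), ?_, rfl⟩
      rw [mem_product, mem_product, mem_product, Set.Finite.mem_toFinset, mem_range, mem_range]
      exact ⟨hTJ, hp, hq, mem_univ _⟩
    have h5 := hC₂ J _ hmem
    have h6 : ∑ n ∈ Icc 1 (2 ^ J), trw (2 ^ J) (tm (T i) (a i) b ((p : ℝ) / 32 ^ J)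
        ((q : ℝ) / 32 ^ J)) n * cm ω n =
        ∑ n ∈ Icc 1 (2 ^ J), tm (T i) (a i) b ((p : ℝ) / 32 ^ J) ((q : ℝ) / 32 ^ J) n * cm ω n := by
      refine sum_congr rfl fun n hn => ?_
      rw [mem_Icc] at hn
      unfold trw
      rw [if_pos hn]
    rw [h6] at h5
    refine h5.trans ?_
    set E := (2 : ℝ) ^ (ε / 8 * J) with hE
    have hE0 : 0 < E := by positivity
    have hE4 : ((2 : ℝ) ^ J) ^ (ε / 2) = E ^ 4 := by
      rw [hE, ← Real.rpow_natCast, ← Real.rpow_mul (by norm_num), ← Real.rpow_natCast,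
        ← Real.rpow_mul (by norm_num)]
      congr 1
      push_cast
      ring
    set L := √(y₁ + 1) * (|C₄| * E ^ 2) * CB with hL
    have hL0 : 0 ≤ L := by positivity
    have hnn : nn (2 ^ J) (trw (2 ^ J) (tm (T i) (a i) b ((p : ℝ) / 32 ^ J) ((q : ℝ) / 32 ^ J))) ≤
        CN * L ^ 2 * ((J : ℝ) + 1) ^ 3 := by
      refine hKN (T i) ((q : ℝ) / 32 ^ J) L J _ (hT i) hTJ hq0 hq1 hL0 ?_ ?_
      · intro n
        unfold trw
        split_ifs with hn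
        · have hn1 : (1 : ℝ) ≤ n := by exact_mod_cast hn.1
          have hn2 : (n : ℝ) ≤ 2 ^ J := by exact_mod_cast hn.2
          refine (tm_bd CB (T i) (hamp (T i) (hT i)).1 (a i) b _ _ (y₁ + 1) (hy₀.trans_le hq0) hq1 n
            hn.1).trans ?_
          refine div_le_div_of_nonneg_right ?_ (Real.sqrt_nonneg _)
          refine mul_le_mul_of_nonneg_right (mul_le_mul_of_nonneg_left ?_ (Real.sqrt_nonneg _)) hCB0
          refine (hC₄ i n hn.1).trans ?_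
          have hTi := hT i
          have h7 : ((n : ℝ) * T i) ^ (ε / 8) ≤ E ^ 2 := by
            have h8 : E ^ 2 = ((2 : ℝ) ^ J * 2 ^ J) ^ (ε / 8) := by
              rw [Real.mul_rpow (by positivity) (by positivity), hE, sq, ← Real.rpow_natCast,
                ← Real.rpow_mul (by norm_num), mul_comm (ε / 8)]
            rw [h8]
            refine Real.rpow_le_rpow (by positivity) ?_ hε8.le
            exact mul_le_mul hn2 hTJ (by linarith) (by positivity)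
          calc C₄ * ((n : ℝ) * T i) ^ (ε / 8) ≤ |C₄| * ((n : ℝ) * T i) ^ (ε / 8) :=
                mul_le_mul_of_nonneg_right (le_abs_self _) (by positivity)
            _ ≤ |C₄| * E ^ 2 := mul_le_mul_of_nonneg_left h7 (abs_nonneg _)
        · rw [abs_zero]
          positivity
      · intro n hn
        unfold trw
        rw [if_neg (by omega)]
    have hJ1 : (1 : ℝ) ≤ (J : ℝ) + 1 := by linarith [Nat.cast_nonneg (α := ℝ) J]
    have hsq : √(nn (2 ^ J) (trw (2 ^ J) (tm (T i) (a i) b ((p : ℝ) / 32 ^ J)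
        ((q : ℝ) / 32 ^ J)))) ≤ √CN * L * ((J : ℝ) + 1) ^ 2 := by
      rw [Real.sqrt_le_left (by positivity)]
      refine hnn.trans ?_
      have e1 : (√CN * L * ((J : ℝ) + 1) ^ 2) ^ 2 = CN * L ^ 2 * (((J : ℝ) + 1) ^ 2) ^ 2 := by
        rw [mul_pow, mul_pow, Real.sq_sqrt hCN0]
      rw [e1]
      refine mul_le_mul_of_nonneg_left ?_ (by positivity)
      rw [← pow_mul]
      exact pow_le_pow_right₀ hJ1 (by norm_num)
    rw [hE4, zero_add]
    calc C₂ * E * √(nn (2 ^ J) (trw (2 ^ J) (tm (T i) (a i) b ((p : ℝ) / 32 ^ J)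
          ((q : ℝ) / 32 ^ J)))) ≤ |C₂| * E * (√CN * L * (K * E)) := by
          refine mul_le_mul (mul_le_mul_of_nonneg_right (le_abs_self _) hE0.le)
            (hsq.trans (mul_le_mul_of_nonneg_left (hK J) (by positivity))) (Real.sqrt_nonneg _)
            (by positivity)
      _ = C₃ * E ^ 4 := by
          rw [hC₃, hL]
          ring
  -- the bound
  refine ⟨C₃ * 2 ^ (ε / 2) + (|C₁| * K₂ + M * ∑' n, hh n), fun i b x y hy hyy => ?_⟩
  have hTi := hT i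
  obtain ⟨J, hJ1, hJ2⟩ := exists_scale (T i) hTi
  have hTJ : T i ≤ 2 ^ J := by nlinarith
  have h32 : (0 : ℝ) < 32 ^ J := by positivity
  have hy1 : y₁ ≤ ⌈y₁⌉₊ := Nat.le_ceil _
  have hfr0 := Int.fract_nonneg x
  have hfr1 := Int.fract_lt_one x
  set p := ⌊Int.fract x * 32 ^ J⌋₊ with hp
  set q := ⌈y * 32 ^ J⌉₊ with hq
  have hy0 : 0 < y := hy₀.trans_le hy
  have hpb1 : (p : ℝ) ≤ Int.fract x * 32 ^ J := Nat.floor_le (by positivity)
  have hpb2 : Int.fract x * 32 ^ J < p + 1 := Nat.lt_floor_add_one _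
  have hqb1 : y * 32 ^ J ≤ q := Nat.le_ceil _
  have hqb2 : (q : ℝ) < y * 32 ^ J + 1 := Nat.ceil_lt_add_one (by positivity)
  have hp1 : p < 32 ^ J + 1 := by
    have h5 : (p : ℝ) < (32 ^ J + 1 : ℕ) := by
      push_cast
      nlinarith
    exact_mod_cast h5
  have hq1 : q < (⌈y₁⌉₊ + 1) * 32 ^ J + 1 := by
    have h5 : (q : ℝ) < ((⌈y₁⌉₊ + 1) * 32 ^ J + 1 : ℕ) := by
      push_cast
      have h6 : y * 32 ^ J ≤ (⌈y₁⌉₊ + 1) * 32 ^ J :=
        mul_le_mul_of_nonneg_right (by linarith) h32.le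
      linarith
    exact_mod_cast h5
  have h321 : (1 : ℝ) ≤ 32 ^ J := one_le_pow₀ (by norm_num)
  have hy'1 : y ≤ (q : ℝ) / 32 ^ J := by
    rw [le_div_iff₀ h32]
    exact hqb1
  have hy'2 : (q : ℝ) / 32 ^ J ≤ y + 1 / 32 ^ J := by
    rw [div_le_iff₀ h32, add_mul, one_div, inv_mul_cancel₀ h32.ne']
    exact hqb2.le
  have hd1 : 1 / (32 : ℝ) ^ J ≤ 1 := by
    rw [div_le_one h32]
    exact h321
  have hy'3 : (q : ℝ) / 32 ^ J ≤ y₁ + 1 := by linarith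
  have hxx : |Int.fract x - (p : ℝ) / 32 ^ J| ≤ 1 / 32 ^ J := by
    rw [abs_le]
    constructor
    · have h5 : (p : ℝ) / 32 ^ J ≤ Int.fract x := by
        rw [div_le_iff₀ h32]
        exact hpb1
      have h6 : (0 : ℝ) < 1 / 32 ^ J := by positivity
      linarith
    · rw [sub_le_iff_le_add, ← add_div, le_div_iff₀ h32]
      linarith
  have hyyy : |y - (q : ℝ) / 32 ^ J| ≤ 1 / 32 ^ J := by
    rw [abs_le]
    constructor <;> linarith
  have hnetb := hnet i J b p q hTJ hp1 hq1 (hy.trans hy'1) hy'3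
  -- the finite sum
  have hdiff : ∀ n ∈ Icc 1 (2 ^ J), |tm (T i) (a i) b x y n * cm ω n -
      tm (T i) (a i) b ((p : ℝ) / 32 ^ J) ((q : ℝ) / 32 ^ J) n * cm ω n| ≤
        |C₁| * K₂ / 2 ^ J := by
    intro n hn
    rw [mem_Icc] at hn
    have hn1 : (1 : ℝ) ≤ n := by exact_mod_cast hn.1
    have hn2 : (n : ℝ) ≤ 2 ^ J := by exact_mod_cast hn.2
    rw [← sub_mul, abs_mul, Pool.Agent.Q13.EP.abs_cm, mul_one, tm_per]
    refine (tm_lip CB (T i) hCB0 hTi (hamp _ hTi).1 (hamp _ hTi).2 (a i) b _ y _ _ y₀ (y₁ + 1)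
      (1 / 32 ^ J) hy₀ hy (hy.trans hy'1) hy'3 hxx hyyy n hn.1).trans ?_
    rw [← hK₂]
    have h5 : |a i n| ≤ |C₁| * (2 ^ J * 2 ^ J) := by
      refine (hC₁ i n hn.1).trans ?_
      rw [Real.rpow_one]
      calc C₁ * ((n : ℝ) * T i) ≤ |C₁| * ((n : ℝ) * T i) :=
            mul_le_mul_of_nonneg_right (le_abs_self _) (by positivity)
        _ ≤ |C₁| * (2 ^ J * 2 ^ J) := mul_le_mul_of_nonneg_left
            (mul_le_mul hn2 hTJ (by linarith) (by positivity)) (abs_nonneg _)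
    have h6 : T i * n * (1 / 32 ^ J) ≤ 2 ^ J * 2 ^ J * (1 / 32 ^ J) :=
      mul_le_mul_of_nonneg_right (mul_le_mul hTJ hn2 (by linarith) (by positivity)) (by positivity)
    calc |a i n| * K₂ * (T i * n * (1 / 32 ^ J))
        ≤ |C₁| * (2 ^ J * 2 ^ J) * K₂ * (2 ^ J * 2 ^ J * (1 / 32 ^ J)) := by
          refine mul_le_mul (mul_le_mul_of_nonneg_right h5 hK₂0) h6 (by positivity) (by positivity)
      _ = |C₁| * K₂ / 2 ^ J := by
          have h7 : (32 : ℝ) ^ J = (2 ^ J) ^ 5 := by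
            rw [← pow_mul, mul_comm, pow_mul]
            norm_num
          rw [h7]
          field_simp
  have hfinsum : |∑ n ∈ Icc 1 (2 ^ J), tm (T i) (a i) b x y n * cm ω n| ≤
      C₃ * ((2 : ℝ) ^ J) ^ (ε / 2) + |C₁| * K₂ := by
    have h5 : |∑ n ∈ Icc 1 (2 ^ J), tm (T i) (a i) b x y n * cm ω n -
        ∑ n ∈ Icc 1 (2 ^ J), tm (T i) (a i) b ((p : ℝ) / 32 ^ J) ((q : ℝ) / 32 ^ J) n * cm ω n| ≤
          |C₁| * K₂ := by
      rw [← sum_sub_distrib]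
      refine (abs_sum_le_sum_abs _ _).trans ((sum_le_sum hdiff).trans (le_of_eq ?_))
      rw [sum_const, Nat.card_Icc, nsmul_eq_mul, Nat.add_sub_cancel]
      push_cast
      field_simp
    have h6 := abs_sub_abs_le_abs_sub (∑ n ∈ Icc 1 (2 ^ J), tm (T i) (a i) b x y n * cm ω n)
      (∑ n ∈ Icc 1 (2 ^ J), tm (T i) (a i) b ((p : ℝ) / 32 ^ J) ((q : ℝ) / 32 ^ J) n * cm ω n)
    linarith
  -- the tail
  have htail : ∀ n : ℕ, |tm (T i) (a i) b x y (n + 2 ^ J + 1) * cm ω (n + 2 ^ J + 1)| ≤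
      M * hh (n + (2 ^ J + 1)) := by
    intro n
    rw [abs_mul, Pool.Agent.Q13.EP.abs_cm, mul_one]
    have hcast : (2 : ℝ) ^ J ≤ ((n + 2 ^ J + 1 : ℕ) : ℝ) := by
      push_cast
      linarith [Nat.cast_nonneg (α := ℝ) n]
    refine hM (T i) (a i) b x y (n + 2 ^ J + 1) hTi hy (by linarith) (hJ1.trans hcast) ?_
    refine (hC₁ i _ (Nat.le_add_left 1 _)).trans ?_
    rw [Real.rpow_one]
    exact mul_le_mul_of_nonneg_right (le_abs_self _) (by positivity)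
  have hs1 : Summable fun n : ℕ => M * hh (n + (2 ^ J + 1)) :=
    ((summable_nat_add_iff (2 ^ J + 1)).2 hhs).mul_left M
  have hs2 : Summable fun n : ℕ => |tm (T i) (a i) b x y (n + 2 ^ J + 1) *
      cm ω (n + 2 ^ J + 1)| := Summable.of_nonneg_of_le (fun _ => abs_nonneg _) htail hs1
  have hs3 : Summable fun n : ℕ => tm (T i) (a i) b x y (n + 1) * cm ω (n + 1) := by
    rw [← summable_nat_add_iff (2 ^ J)]
    exact hs2.of_abs
  have htl : |∑' n : ℕ, tm (T i) (a i) b x y (n + 2 ^ J + 1) * cm ω (n + 2 ^ J + 1)| ≤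
      M * ∑' n, hh n := by
    have h5 : |∑' n : ℕ, tm (T i) (a i) b x y (n + 2 ^ J + 1) * cm ω (n + 2 ^ J + 1)| ≤
        ∑' n : ℕ, |tm (T i) (a i) b x y (n + 2 ^ J + 1) * cm ω (n + 2 ^ J + 1)| := by
      have := norm_tsum_le_tsum_norm (f := fun n : ℕ => tm (T i) (a i) b x y (n + 2 ^ J + 1) *
        cm ω (n + 2 ^ J + 1)) hs2
      exact this
    refine h5.trans ((hs2.tsum_le_tsum htail hs1).trans ?_)
    rw [tsum_mul_left]
    refine mul_le_mul_of_nonneg_left ?_ hM0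
    have h6 := hhs.sum_add_tsum_nat_add (2 ^ J + 1)
    have h7 : 0 ≤ ∑ n ∈ range (2 ^ J + 1), hh n := sum_nonneg fun n _ => hh0 n
    linarith
  have hsplit := hs3.sum_add_tsum_nat_add (2 ^ J)
  rw [sum_range_Icc (fun n => tm (T i) (a i) b x y n * cm ω n)] at hsplit
  have hTε : (1 : ℝ) ≤ T i ^ ε := Real.one_le_rpow hTi hε.le
  have hJε : ((2 : ℝ) ^ J) ^ (ε / 2) ≤ 2 ^ (ε / 2) * T i ^ ε := by
    have h5 : (2 : ℝ) ^ (ε / 2) * T i ^ ε = (2 * T i ^ 2) ^ (ε / 2) := by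
      rw [Real.mul_rpow (by norm_num) (by positivity), ← Real.rpow_natCast (T i) 2,
        ← Real.rpow_mul (by linarith)]
      congr 2
      push_cast
      ring
    rw [h5]
    exact Real.rpow_le_rpow (by positivity) hJ2 (by positivity)
  have hsum0 : 0 ≤ ∑' n, hh n := tsum_nonneg hh0
  rw [← hsplit]
  refine (abs_add_le _ _).trans ?_
  have h9 : |∑ n ∈ Icc 1 (2 ^ J), tm (T i) (a i) b x y n * cm ω n| +
      |∑' n : ℕ, tm (T i) (a i) b x y (n + 2 ^ J + 1) * cm ω (n + 2 ^ J + 1)| ≤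
      (C₃ * 2 ^ (ε / 2) + (|C₁| * K₂ + M * ∑' n, hh n)) * T i ^ ε := by
    have h10 : C₃ * ((2 : ℝ) ^ J) ^ (ε / 2) ≤ C₃ * (2 ^ (ε / 2) * T i ^ ε) :=
      mul_le_mul_of_nonneg_left hJε hC₃0
    have h11 : |C₁| * K₂ + M * ∑' n, hh n ≤ (|C₁| * K₂ + M * ∑' n, hh n) * T i ^ ε :=
      le_mul_of_one_le_right (by positivity) hTε
    nlinarith
  exact h9

end Pool.Agent.Q65.L2

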