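import Pool.Agent.Q65.L2.Ysa
import Pool.Agent.Q65.L2.SN

/-!
# Project L2Y (helper255), job YS: the size of the twists on low horocycles
-/

set_option autoImplicit false

namespace Pool.Agent.Q65.L2Y

open Filter Topology Finset
open Pool.Agent.Q255.L2 Pool.Agent.Q255.L2Y
open Pool.Agent.Q162.L2.GMB (P2 P2_pos P2_add P2_le P2_zero P2_nat P2_pow P2_rpow P2_ge natlog_le)

/-- the cut -/
noncomputable def yc (η : ℝ) (J : ℕ) : ℝ := P2 ((1 + η) * ((J : ℝ) / 2))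

/-- the functions of the net -/
noncomputable def wY (η : ℝ) (J : ℕ) (b : Bool) (a : ℕ → ℝ) (V : ℝ → ℝ) (p q : ℕ) (n : ℕ) : ℝ :=
  if 1 ≤ n ∧ (n : ℝ) ≤ yc η J then tY b a V ((p : ℝ) / 32 ^ J) ((q : ℝ) / 32 ^ J) n else 0

theorem tY_fract (b : Bool) (a : ℕ → ℝ) (V : ℝ → ℝ) (x y : ℝ) (n : ℕ) :
    tY b a V x y n = tY b a V (Int.fract x) y n := by
  unfold tY
  rw [ph_int]

theorem yc_two (η : ℝ) (J : ℕ) : yc η (2 * J) = P2 ((1 + η) * J) := by
  unfold yc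
  congr 1
  push_cast
  ring

/-- the norm of the functions -/
theorem norm_w {V V' : ℝ → ℝ} {C₀ c₀ : ℝ} (hc : 0 < c₀)
    (hV : ∀ u : ℝ, 0 < u → HasDerivAt V (V' u) u ∧ |V u| ≤ C₀ * Real.exp (-(c₀ * u)) ∧
      |V' u| ≤ C₀ * Real.exp (-(c₀ * u)) / u) (a : ℕ → ℝ) {η K h₁ : ℝ} (hη0 : 0 < η) (hη1 : η ≤ 1)
    (hK : 0 ≤ K) (hM : ∀ Y : ℝ, 1 ≤ Y → M8 (K * Y ^ (η / 2)) (4 * Y) a) (hh : 0 ≤ h₁) :
    ∃ C : ℝ, 0 ≤ C ∧ ∀ (J : ℕ) (b : Bool) (p q : ℕ), 0 < (q : ℝ) / 32 ^ (2 * J) →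
      (q : ℝ) / 32 ^ (2 * J) ≤ (h₁ + 1) * P2 (-(J : ℝ)) →
      nn (2 ^ (2 * J)) (wY η (2 * J) b a V p q) ≤ C * P2 (3 * η * J) := by
  obtain ⟨K₃, hK₃1, hK₃⟩ := natlog_le 1 (η / 2) le_rfl (by positivity)
  refine ⟨(h₁ + 1) * C₀ ^ 2 * (K₃ * (2 * (1 + K))), by positivity, fun J b p q hq0 hq1 => ?_⟩
  set y' := (q : ℝ) / 32 ^ (2 * J) with hy'
  set Y := P2 ((1 + η) * J) with hY
  have hJ : (0 : ℝ) ≤ J := Nat.cast_nonneg J
  have hY1 : 1 ≤ Y := P2_ge _ (by positivity)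
  have hYη : Y ^ (η / 2) ≤ P2 (η * J) := by
    rw [hY, P2_rpow]
    refine P2_le ?_
    have : (1 + η) * (η / 2) ≤ η := by nlinarith
    calc (1 + η) * J * (η / 2) = (1 + η) * (η / 2) * J := by ring
      _ ≤ η * J := mul_le_mul_of_nonneg_right this hJ
  have hB0 : 0 ≤ K * Y ^ (η / 2) := mul_nonneg hK (Real.rpow_nonneg (by linarith) _)
  have h1 := nn_abs a (K * Y ^ (η / 2)) Y (2 ^ (2 * J)) hB0 hY1 (hM Y hY1)
  have h2 : nn (2 ^ (2 * J)) (wY η (2 * J) b a V p q) ≤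
      (√y' * |C₀|) ^ 2 * nn (2 ^ (2 * J)) (fun n => if (n : ℝ) ≤ Y then |a n| else 0) := by
    refine nn_mono _ _ _ _ (by positivity) (fun n => ?_) (fun n => ?_)
    · unfold wY
      rw [yc_two, ← hY, ← hy']
      by_cases hn : 1 ≤ n ∧ (n : ℝ) ≤ Y
      · rw [if_pos hn, if_pos hn.2]
        refine (tY_le hV b a _ _ n hn.1 hq0).trans ?_
        have hn1 : (1 : ℝ) ≤ n := by exact_mod_cast hn.1
        have h3 : Real.exp (-(c₀ * (n * y'))) ≤ 1 := Real.exp_le_one_iff.2 (by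
          have : 0 < c₀ * (n * y') := by positivity
          linarith)
        exact mul_le_of_le_one_right (by positivity) h3
      · rw [if_neg hn, abs_zero]
        split_ifs <;> positivity
    · split_ifs
      · exact abs_nonneg _
      · exact le_rfl
  have h3 : ((Nat.log 2 ⌊Y⌋₊ + 1 : ℕ) : ℝ) ≤ K₃ * P2 (η * J) := by
    have h4 := hK₃ Y (2 * J) hY1 (by
      rw [one_mul, ← P2_nat, hY]
      refine P2_le ?_
      push_cast
      nlinarith)
    refine h4.trans (le_of_eq ?_)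
    congr 2
    push_cast
    ring
  have h5 : 1 + K * Y ^ (η / 2) ≤ (1 + K) * P2 (η * J) := by
    have h6 : 1 ≤ P2 (η * J) := P2_ge _ (by positivity)
    have := mul_le_mul_of_nonneg_left hYη hK
    linarith
  have h6 : (√y' * |C₀|) ^ 2 ≤ (h₁ + 1) * P2 (-(J : ℝ)) * C₀ ^ 2 := by
    rw [mul_pow, Real.sq_sqrt hq0.le, sq_abs]
    exact mul_le_mul_of_nonneg_right hq1 (sq_nonneg _)
  have hPJ := P2_pos (-(J : ℝ))
  have hPη := P2_pos (η * J)
  calc nn (2 ^ (2 * J)) (wY η (2 * J) b a V p q) ≤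
        (√y' * |C₀|) ^ 2 * ((Nat.log 2 ⌊Y⌋₊ + 1 : ℕ) * (2 * (1 + K * Y ^ (η / 2)) * Y)) :=
          h2.trans (mul_le_mul_of_nonneg_left h1 (by positivity))
    _ ≤ (h₁ + 1) * P2 (-(J : ℝ)) * C₀ ^ 2 * ((K₃ * P2 (η * J)) * (2 * ((1 + K) * P2 (η * J)) * Y)) := by
          refine mul_le_mul h6 (mul_le_mul h3 (mul_le_mul_of_nonneg_right
            (mul_le_mul_of_nonneg_left h5 (by norm_num)) (by linarith)) (by positivity) (by positivity))
            (by positivity) (by positivity)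
    _ = (h₁ + 1) * C₀ ^ 2 * (K₃ * (2 * (1 + K))) * (P2 (-(J : ℝ)) * (P2 (η * J) * (P2 (η * J) * Y))) := by
          ring
    _ = (h₁ + 1) * C₀ ^ 2 * (K₃ * (2 * (1 + K))) * P2 (3 * η * J) := by
          rw [hY, ← P2_add, ← P2_add, ← P2_add]
          congr 2
          ring

/-- the tail -/
theorem tail_bd {V V' : ℝ → ℝ} {C₀ c₀ : ℝ} (hc : 0 < c₀)
    (hV : ∀ u : ℝ, 0 < u → HasDerivAt V (V' u) u ∧ |V u| ≤ C₀ * Real.exp (-(c₀ * u)) ∧
      |V' u| ≤ C₀ * Real.exp (-(c₀ * u)) / u) (b : Bool) (a : ℕ → ℝ) {CA η h₀ h₁ : ℝ} (hCA : 0 ≤ CA)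
    (ha : ∀ n : ℕ, 1 ≤ n → |a n| ≤ CA * n) (hη : 0 < η) (hh0 : 0 < h₀) (hh1 : 0 ≤ h₁) (J n : ℕ) (x y : ℝ)
    (hn : P2 ((1 + η) * J) < n) (hy0 : h₀ * P2 (-(J : ℝ)) ≤ y) (hy1 : y ≤ h₁ * P2 (-(J : ℝ))) :
    |tY b a V x y n| ≤
      √h₁ * |C₀| * CA * ((n : ℝ) * Real.exp (-(c₀ * h₀ * (n : ℝ) ^ (η / (1 + η))))) := by
  have hJ : (0 : ℝ) ≤ J := Nat.cast_nonneg J
  have hPJ := P2_pos (-(J : ℝ))
  have hPJ1 : P2 (-(J : ℝ)) ≤ 1 := by
    rw [← P2_zero]
    exact P2_le (by linarith)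
  have hn1 : (1 : ℝ) < n := lt_of_le_of_lt (P2_ge _ (by positivity)) hn
  have hn1' : 1 ≤ n := by
    have : (1 : ℕ) < n := by exact_mod_cast hn1
    omega
  have hn0 : (0 : ℝ) < n := by linarith
  have hy : 0 < y := lt_of_lt_of_le (by positivity) hy0
  have h1 := tY_le hV b a x y n hn1' hy
  have h2 : √y ≤ √h₁ := Real.sqrt_le_sqrt (hy1.trans (mul_le_of_le_one_right hh1 hPJ1))
  have h3 : (n : ℝ) ^ (η / (1 + η)) ≤ n * P2 (-(J : ℝ)) := by
    have h4 : P2 J ≤ (n : ℝ) ^ (1 / (1 + η)) := by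
      have h5 := Real.rpow_le_rpow (P2_pos ((1 + η) * J)).le hn.le (by positivity : 0 ≤ 1 / (1 + η))
      rw [P2_rpow] at h5
      have h6 : (1 + η) * J * (1 / (1 + η)) = J := by field_simp
      rwa [h6] at h5
    have h7 : (n : ℝ) ^ (η / (1 + η)) * (n : ℝ) ^ (1 / (1 + η)) = n := by
      rw [← Real.rpow_add hn0, ← add_div, add_comm η 1, div_self (by positivity), Real.rpow_one]
    have h8 : (n : ℝ) ^ (η / (1 + η)) * P2 J ≤ n := by
      refine le_trans ?_ h7.le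
      exact mul_le_mul_of_nonneg_left h4 (Real.rpow_nonneg hn0.le _)
    have h9 : P2 (J : ℝ) * P2 (-(J : ℝ)) = 1 := by
      rw [← P2_add, add_neg_cancel, P2_zero]
    calc (n : ℝ) ^ (η / (1 + η)) = (n : ℝ) ^ (η / (1 + η)) * P2 J * P2 (-(J : ℝ)) := by
          rw [mul_assoc, h9, mul_one]
      _ ≤ n * P2 (-(J : ℝ)) := mul_le_mul_of_nonneg_right h8 hPJ.le
  have h10 : Real.exp (-(c₀ * (n * y))) ≤ Real.exp (-(c₀ * h₀ * (n : ℝ) ^ (η / (1 + η)))) := by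
    rw [Real.exp_le_exp, neg_le_neg_iff, mul_assoc]
    refine mul_le_mul_of_nonneg_left ?_ hc.le
    calc h₀ * (n : ℝ) ^ (η / (1 + η)) ≤ h₀ * (n * P2 (-(J : ℝ))) := mul_le_mul_of_nonneg_left h3 hh0.le
      _ = n * (h₀ * P2 (-(J : ℝ))) := by ring
      _ ≤ n * y := mul_le_mul_of_nonneg_left hy0 hn0.le
  calc |tY b a V x y n| ≤ √y * |C₀| * |a n| * Real.exp (-(c₀ * (n * y))) := h1
    _ ≤ √h₁ * |C₀| * (CA * n) * Real.exp (-(c₀ * h₀ * (n : ℝ) ^ (η / (1 + η)))) := by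
        refine mul_le_mul (mul_le_mul (mul_le_mul_of_nonneg_right h2 (abs_nonneg _)) (ha n hn1')
          (abs_nonneg _) (by positivity)) h10 (Real.exp_pos _).le (by positivity)
    _ = _ := by ring

/-- one form -/
theorem one_form {V V' : ℝ → ℝ} {C₀ c₀ : ℝ} (hc : 0 < c₀)
    (hV : ∀ u : ℝ, 0 < u → HasDerivAt V (V' u) u ∧ |V u| ≤ C₀ * Real.exp (-(c₀ * u)) ∧
      |V' u| ≤ C₀ * Real.exp (-(c₀ * u)) / u) (a : ℕ → ℝ) {CA K η h₀ h₁ ε : ℝ} (hCA : 0 ≤ CA)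
    (ha : ∀ n : ℕ, 1 ≤ n → |a n| ≤ CA * n) (hη0 : 0 < η) (hη1 : η ≤ 1) (hηε : 3 * η ≤ ε)
    (hK : 0 ≤ K) (hM : ∀ Y : ℝ, 1 ≤ Y → M8 (K * Y ^ (η / 2)) (4 * Y) a) (hh0 : 0 < h₀) (hh1 : h₀ ≤ h₁) :
    ∃ C : ℝ, 0 ≤ C ∧ ∀ (J m : ℕ) (b : Bool) (x y : ℝ), h₀ * P2 (-(J : ℝ)) ≤ y → y ≤ h₁ * P2 (-(J : ℝ)) →
      (∀ p q : ℕ, p < 32 ^ (2 * J) + 1 → q < (⌈h₁⌉₊ + 1) * 32 ^ (2 * J) + 1 →
        |∑ n ∈ Icc 1 (2 ^ (2 * J)), wY η (2 * J) b a V p q n * jc m n| ≤
          P2 (ε / 4 * ((2 * J : ℕ) : ℝ)) * √(nn (2 ^ (2 * J)) (wY η (2 * J) b a V p q))) →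
      |uf b (jc m) a V x y| ≤ C * P2 (ε * J) := by
  have hh1' : 0 < h₁ := hh0.trans_le hh1
  have hε : 0 < ε := by linarith
  have hpi := Real.pi_pos
  obtain ⟨CN, hCN0, hCN⟩ := norm_w hc hV a hη0 hη1 hK hM hh1'.le
  set δ := η / (1 + η) with hδ
  have hδ0 : 0 < δ := by positivity
  set hf : ℕ → ℝ := fun n => √h₁ * |C₀| * CA * (((n + 1 : ℕ) : ℝ) *
    Real.exp (-(c₀ * h₀ * ((n + 1 : ℕ) : ℝ) ^ δ))) with hhf
  have hfs : Summable hf := (tail_summable (c₀ * h₀) δ (by positivity) hδ0).mul_left _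
  have hf0 : ∀ n, 0 ≤ hf n := fun n => by
    rw [hhf]
    positivity
  set K₂ := CA * |C₀| * (2 / √h₀ + √(h₁ + 1) * (2 * Real.pi)) with hK₂
  have hK₂0 : 0 ≤ K₂ := by positivity
  have hjc : ∀ md n : ℕ, |jc md n| ≤ 1 := by
    intro md n
    unfold jc
    rcases jacobiSym.trichotomy (n : ℤ) md with h0 | h0 | h0 <;> rw [h0] <;> norm_num
  refine ⟨√CN + K₂ + ∑' n, hf n, add_nonneg (by positivity) (tsum_nonneg hf0), fun J m b x y hy0 hy1 hnet => ?_⟩
  have hJ : (0 : ℝ) ≤ J := Nat.cast_nonneg J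
  have hPJ := P2_pos (-(J : ℝ))
  have hPJ1 : P2 (-(J : ℝ)) ≤ 1 := by
    rw [← P2_zero]
    exact P2_le (by linarith)
  have hPε : 1 ≤ P2 (ε * J) := P2_ge _ (by positivity)
  set N : ℝ := 2 ^ (2 * J) with hN
  have hN1 : 1 ≤ N := one_le_pow₀ (by norm_num)
  have hNP : N = P2 (2 * J) := by
    rw [hN, ← P2_nat]
    congr 1
    push_cast
    ring
  set M : ℝ := 32 ^ (2 * J) with hM'
  have hMN : M = N ^ 5 := by
    have h32 : (32 : ℝ) = 2 ^ 5 := by norm_num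
    rw [hM', hN, h32, ← pow_mul, ← pow_mul, mul_comm]
  have hM1 : 1 ≤ M := one_le_pow₀ (by norm_num)
  have hM0 : 0 < M := by linarith
  have hMP : 1 / M ≤ P2 (-(J : ℝ)) := by
    have h1 : P2 J ≤ M := by
      rw [hMN]
      calc P2 J ≤ P2 (2 * J) := P2_le (by linarith)
        _ = N := hNP.symm
        _ ≤ N ^ 5 := le_self_pow₀ hN1 (by norm_num)
    have h2 : P2 (J : ℝ) * P2 (-(J : ℝ)) = 1 := by
      rw [← P2_add, add_neg_cancel, P2_zero]
    rw [div_le_iff₀ hM0, ← h2, mul_comm (P2 (-(J : ℝ)))]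
    exact mul_le_mul_of_nonneg_right h1 hPJ.le
  have hy : 0 < y := lt_of_lt_of_le (by positivity) hy0
  have hfr0 := Int.fract_nonneg x
  have hfr1 := Int.fract_lt_one x
  set p := ⌊Int.fract x * M⌋₊ with hp
  set q := ⌈y * M⌉₊ with hq
  have hpb1 : (p : ℝ) ≤ Int.fract x * M := Nat.floor_le (by positivity)
  have hpb2 : Int.fract x * M < p + 1 := Nat.lt_floor_add_one _
  have hqb1 : y * M ≤ q := Nat.le_ceil _
  have hqb2 : (q : ℝ) < y * M + 1 := Nat.ceil_lt_add_one (by positivity)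
  have hp1 : p < 32 ^ (2 * J) + 1 := by
    have h5 : (p : ℝ) < (32 ^ (2 * J) + 1 : ℕ) := by
      push_cast
      rw [← hM']
      nlinarith
    exact_mod_cast h5
  have hyh : y ≤ h₁ := hy1.trans (mul_le_of_le_one_right hh1'.le hPJ1)
  have hq1 : q < (⌈h₁⌉₊ + 1) * 32 ^ (2 * J) + 1 := by
    have h5 : (q : ℝ) < ((⌈h₁⌉₊ + 1) * 32 ^ (2 * J) + 1 : ℕ) := by
      push_cast
      rw [← hM']
      have h6 : y * M ≤ (⌈h₁⌉₊ + 1) * M :=
        mul_le_mul_of_nonneg_right (by linarith [Nat.le_ceil h₁]) hM0.le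
      linarith
    exact_mod_cast h5
  set x' := (p : ℝ) / M with hx'
  set y' := (q : ℝ) / M with hy'
  have hy'1 : y ≤ y' := by
    rw [hy', le_div_iff₀ hM0]
    exact hqb1
  have hy'2 : y' ≤ y + 1 / M := by
    rw [hy', div_le_iff₀ hM0, add_mul, one_div, inv_mul_cancel₀ hM0.ne']
    exact hqb2.le
  have hy'3 : y' ≤ (h₁ + 1) * P2 (-(J : ℝ)) := by
    rw [add_mul, one_mul]
    linarith
  have hy'4 : y' ≤ h₁ + 1 := hy'3.trans (mul_le_of_le_one_right (by positivity) hPJ1)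
  have hxx : |Int.fract x - x'| ≤ 1 / M := by
    rw [abs_le]
    constructor
    · have h5 : x' ≤ Int.fract x := by
        rw [hx', div_le_iff₀ hM0]
        exact hpb1
      have h6 : (0 : ℝ) < 1 / M := by positivity
      linarith
    · rw [sub_le_iff_le_add, hx', ← add_div, le_div_iff₀ hM0]
      linarith
  -- the net
  have h1 : |∑ n ∈ Icc 1 (2 ^ (2 * J)), wY η (2 * J) b a V p q n * jc m n| ≤ √CN * P2 (ε * J) := by
    refine (hnet p q hp1 hq1).trans ?_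
    have h2 : √(nn (2 ^ (2 * J)) (wY η (2 * J) b a V p q)) ≤ √CN * P2 (ε / 2 * J) := by
      rw [Real.sqrt_le_left (mul_nonneg (Real.sqrt_nonneg _) (P2_pos _).le)]
      refine (hCN J b p q (hy.trans_le hy'1) hy'3).trans ?_
      rw [mul_pow, Real.sq_sqrt hCN0, P2_pow]
      refine mul_le_mul_of_nonneg_left (P2_le ?_) hCN0
      have := mul_le_mul_of_nonneg_right hηε hJ
      push_cast
      linarith
    calc P2 (ε / 4 * ((2 * J : ℕ) : ℝ)) * √(nn (2 ^ (2 * J)) (wY η (2 * J) b a V p q))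
        ≤ P2 (ε / 4 * ((2 * J : ℕ) : ℝ)) * (√CN * P2 (ε / 2 * J)) :=
          mul_le_mul_of_nonneg_left h2 (P2_pos _).le
      _ = √CN * (P2 (ε / 4 * ((2 * J : ℕ) : ℝ)) * P2 (ε / 2 * J)) := by ring
      _ = √CN * P2 (ε * J) := by
          rw [← P2_add]
          congr 2
          push_cast
          ring
  -- the series
  set g : ℕ → ℝ := fun n => tY b a V x y (n + 1) * jc m (n + 1) with hg
  set g1 : ℕ → ℝ := fun n => wY η (2 * J) b a V p q (n + 1) * jc m (n + 1) with hg1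
  set Y := P2 ((1 + η) * J) with hY
  have hYN : Y ≤ N := by
    rw [hY, hNP]
    exact P2_le (mul_le_mul_of_nonneg_right (by linarith) hJ)
  have hin : ∀ n : ℕ, ((n + 1 : ℕ) : ℝ) ≤ Y → g1 n = tY b a V x' y' (n + 1) * jc m (n + 1) := by
    intro n hn
    rw [hg1]
    show wY η (2 * J) b a V p q (n + 1) * jc m (n + 1) = _
    unfold wY
    rw [yc_two, ← hY, if_pos ⟨by omega, hn⟩]
  have hout : ∀ n : ℕ, Y < ((n + 1 : ℕ) : ℝ) → g1 n = 0 := by
    intro n hn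
    rw [hg1]
    show wY η (2 * J) b a V p q (n + 1) * jc m (n + 1) = _
    unfold wY
    rw [yc_two, ← hY, if_neg (fun h => absurd h.2 (not_le.2 hn)), zero_mul]
  have hzero : ∀ n, n ∉ range (2 ^ (2 * J)) → g1 n = 0 := by
    intro n hn
    rw [mem_range, not_lt] at hn
    refine hout n (hYN.trans_lt ?_)
    have h2 : N ≤ n := by
      rw [hN]
      exact_mod_cast hn
    push_cast
    linarith
  have hs1 : Summable g1 := summable_of_ne_finset_zero (s := range (2 ^ (2 * J))) hzero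
  have e1 : ∑' n, g1 n = ∑ n ∈ Icc 1 (2 ^ (2 * J)), wY η (2 * J) b a V p q n * jc m n := by
    rw [tsum_eq_sum hzero,
      ← Pool.Agent.Q65.L2.sum_range_Icc (fun n => wY η (2 * J) b a V p q n * jc m n)]
  set D : ℕ → ℝ := fun n => if n < 2 ^ (2 * J) then K₂ / N else 0 with hD
  have hDz : ∀ n, n ∉ range (2 ^ (2 * J)) → D n = 0 := by
    intro n hn
    rw [mem_range] at hn
    rw [hD]
    exact if_neg hn
  have hDs : Summable D := summable_of_ne_finset_zero (s := range (2 ^ (2 * J))) hDz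
  have hDt : ∑' n, D n = K₂ := by
    rw [tsum_eq_sum hDz]
    have h2 : ∀ n ∈ range (2 ^ (2 * J)), D n = K₂ / N := by
      intro n hn
      rw [hD]
      exact if_pos (mem_range.1 hn)
    rw [sum_congr rfl h2, sum_const, card_range, nsmul_eq_mul]
    push_cast
    rw [← hN]
    field_simp
  have hD0 : ∀ n, 0 ≤ D n := by
    intro n
    rw [hD]
    dsimp only
    split_ifs <;> positivity
  have hrb : ∀ n, |g n - g1 n| ≤ D n + hf n := by
    intro n
    rcases le_or_gt ((n + 1 : ℕ) : ℝ) Y with hn | hn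
    · rw [hin n hn, hg]
      show |tY b a V x y (n + 1) * jc m (n + 1) - _| ≤ _
      rw [← sub_mul, abs_mul, tY_fract]
      refine (mul_le_of_le_one_right (abs_nonneg _) (hjc _ _)).trans ?_
      have h2 := tY_lip hc hV b a (Int.fract x) x' y y' (1 / M) (n + 1) (by omega) hy hy'1 hy'2 hxx
      refine h2.trans ?_
      have hnN : ((n + 1 : ℕ) : ℝ) ≤ N := hn.trans hYN
      have hn0 : (0 : ℝ) ≤ ((n + 1 : ℕ) : ℝ) := Nat.cast_nonneg _
      have h3 : |a (n + 1)| ≤ CA * N :=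
        (ha (n + 1) (by omega)).trans (mul_le_mul_of_nonneg_left hnN hCA)
      have h4 : 2 / √y ≤ 2 / √h₀ * N := by
        have h5 : √h₀ ≤ N * √y := by
          rw [Real.sqrt_le_left (by positivity), mul_pow, Real.sq_sqrt hy.le]
          have h6 : P2 (J : ℝ) * P2 (-(J : ℝ)) = 1 := by
            rw [← P2_add, add_neg_cancel, P2_zero]
          have h7 : P2 (J : ℝ) ≤ N ^ 2 := by
            calc P2 (J : ℝ) ≤ P2 (2 * J) := P2_le (by linarith)
              _ = N := hNP.symm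
              _ ≤ N ^ 2 := le_self_pow₀ hN1 (by norm_num)
          calc h₀ = P2 (J : ℝ) * (h₀ * P2 (-(J : ℝ))) := by
                rw [mul_left_comm, h6, mul_one]
            _ ≤ N ^ 2 * y := mul_le_mul h7 hy0 (by positivity) (by positivity)
        have hs0 : 0 < √h₀ := Real.sqrt_pos.2 hh0
        have hsy : 0 < √y := Real.sqrt_pos.2 hy
        rw [div_mul_eq_mul_div, div_le_div_iff₀ hsy hs0]
        nlinarith
      have h5 : √y' * (2 * Real.pi * ((n + 1 : ℕ) : ℝ)) ≤ √(h₁ + 1) * (2 * Real.pi) * N := by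
        rw [mul_assoc (√(h₁ + 1))]
        refine mul_le_mul (Real.sqrt_le_sqrt hy'4) ?_ (by positivity) (Real.sqrt_nonneg _)
        exact mul_le_mul_of_nonneg_left hnN (by positivity)
      have hDn : D n = K₂ / N := by
        rw [hD]
        refine if_pos ?_
        have h6 : (n : ℝ) < N := by
          have : (n : ℝ) < ((n + 1 : ℕ) : ℝ) := by
            push_cast
            linarith
          linarith
        rw [hN] at h6
        exact_mod_cast h6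
      rw [hDn]
      refine le_trans ?_ (le_add_of_nonneg_right (hf0 n))
      calc |a (n + 1)| * (|C₀| * (2 / √y + √y' * (2 * Real.pi * ((n + 1 : ℕ) : ℝ))) * (1 / M))
          ≤ (CA * N) * (|C₀| * (2 / √h₀ * N + √(h₁ + 1) * (2 * Real.pi) * N) * (1 / M)) := by
            refine mul_le_mul h3 ?_ (by positivity) (by positivity)
            exact mul_le_mul_of_nonneg_right (mul_le_mul_of_nonneg_left (add_le_add h4 h5) (abs_nonneg _))
              (by positivity)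
        _ = K₂ / N ^ 3 := by
            rw [hK₂, hMN]
            field_simp
        _ ≤ K₂ / N := div_le_div_of_nonneg_left hK₂0 (by linarith) (le_self_pow₀ hN1 (by norm_num))
    · rw [hout n hn, sub_zero, hg]
      show |tY b a V x y (n + 1) * jc m (n + 1)| ≤ _
      rw [abs_mul]
      refine (mul_le_of_le_one_right (abs_nonneg _) (hjc _ _)).trans ?_
      refine le_trans ?_ (le_add_of_nonneg_left (hD0 n))
      exact tail_bd hc hV b a hCA ha hη0 hh0 hh1'.le J (n + 1) x y hn hy0 hy1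
  have hs2 : Summable fun n => |g n - g1 n| :=
    Summable.of_nonneg_of_le (fun _ => abs_nonneg _) hrb (hDs.add hfs)
  have hs3 : Summable fun n => g n - g1 n := hs2.of_abs
  have e2 : ∑' n, g n = ∑' n, g1 n + ∑' n, (g n - g1 n) := by
    rw [← hs1.tsum_add hs3]
    exact tsum_congr fun n => by ring
  have e3 : |∑' n, (g n - g1 n)| ≤ K₂ + ∑' n, hf n := by
    have h5 : |∑' n, (g n - g1 n)| ≤ ∑' n, |g n - g1 n| := by
      have := norm_tsum_le_tsum_norm (f := fun n => g n - g1 n) (by simpa using hs2)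
      simpa using this
    refine h5.trans ((hs2.tsum_le_tsum hrb (hDs.add hfs)).trans (le_of_eq ?_))
    rw [hDs.tsum_add hfs, hDt]
  rw [uf_eq]
  change |∑' n, g n| ≤ _
  rw [e2, e1]
  refine (abs_add_le _ _).trans ?_
  have h6 : 0 ≤ K₂ + ∑' n, hf n := add_nonneg hK₂0 (tsum_nonneg hf0)
  nlinarith

/-- **JOB YS** -/
theorem ys (h : S_QE) : S_YS := by
  classical
  intro ι _ a V V' ha hAdm h₀ h₁ ε hh0 hh1 hε
  have hh1' : 0 < h₁ := hh0.trans_le hh1
  set η := min (ε / 3) 1 with hη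
  have hη0 : 0 < η := lt_min (by positivity) one_pos
  have hη1 : η ≤ 1 := min_le_right _ _
  have hηε : 3 * η ≤ ε := by
    have := min_le_left (ε / 3) 1
    rw [← hη] at this
    linarith
  obtain ⟨CA, hCA0, hCA⟩ := coef_pt ha
  obtain ⟨K, hK0, hK⟩ := m8_one ha (half_pos hη0)
  choose C₀ c₀ hc₀ hV using hAdm
  choose Cf hCf0 hCf using fun i : ι => one_form (hc₀ i) (hV i) (a i) (CA := CA) (K := K) (η := η) (h₀ := h₀)
    (h₁ := h₁) (ε := ε) hCA0 (hCA i) hη0 hη1 hηε hK0 (hK i) hh0 hh1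
  let W : ℕ → Finset (ℕ → ℝ) := fun J =>
    Finset.image (fun r : ι × ℕ × ℕ × Bool => wY η J r.2.2.2 (a r.1) (V r.1) r.2.1 r.2.2.1)
      ((univ : Finset ι) ×ˢ (range (32 ^ J + 1) ×ˢ
        (range ((⌈h₁⌉₊ + 1) * 32 ^ J + 1) ×ˢ (univ : Finset Bool))))
  obtain ⟨A', hA'⟩ := Pool.Agent.Q65.L2.card_bd (Fintype.card ι) ⌈h₁⌉₊
  have hQ := h A' (ε / 4) W (by positivity) (by
    intro J
    have hN : ((Fintype.card ι : ℕ) : ℝ) ≤ (Fintype.card ι : ℝ) * ((2 : ℝ) ^ J) ^ (Fintype.card ι : ℝ) := by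
      refine le_mul_of_one_le_right (Nat.cast_nonneg _) ?_
      exact Real.one_le_rpow (one_le_pow₀ (by norm_num)) (Nat.cast_nonneg _)
    refine le_trans ?_ (hA' J _ hN)
    refine Nat.cast_le.2 (Finset.card_image_le.trans (le_of_eq ?_))
    rw [card_product, card_product, card_product, card_range, card_range, card_univ, card_univ,
      Fintype.card_bool])
  refine ⟨∑ i, Cf i, (hQ.scale (k := 2) (by norm_num) 0).mono fun J m hmem i b x y hy0 hy1 => ?_⟩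
  have h1 := hCf i J m b x y hy0 hy1 (by
    intro p q hp hq
    have hw : wY η (2 * J) b (a i) (V i) p q ∈ W (2 * J) := by
      refine Finset.mem_image.2 ⟨(i, p, q, b), ?_, rfl⟩
      rw [mem_product, mem_product, mem_product, mem_range, mem_range]
      exact ⟨mem_univ _, hp, hq, mem_univ _⟩
    exact hmem _ hw)
  refine h1.trans ?_
  refine mul_le_mul_of_nonneg_right ?_ (P2_pos _).le
  exact single_le_sum (fun j _ => hCf0 j) (mem_univ i)

end Pool.Agent.Q65.L2Y
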