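import Pool.Agent.Q255.L2.StmY
import Pool.Agent.Q162.L2.GMBc

/-!
# Project L2Y (helper255), job YS, part 1: norms, tails and differences
-/

set_option autoImplicit false

namespace Pool.Agent.Q65.L2Y

open Filter Topology Finset
open Pool.Agent.Q255.L2 Pool.Agent.Q255.L2Y

/-- single coefficients -/
theorem coef_pt {ι : Type} {a : ι → ℕ → ℝ} (ha : Coef (fun _ => (1 : ℝ)) a) :
    ∃ C : ℝ, 0 ≤ C ∧ ∀ (i : ι) (n : ℕ), 1 ≤ n → |a i n| ≤ C * n := by
  obtain ⟨C₁, hC₁⟩ := ha.1 1 one_pos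
  refine ⟨|C₁| + 1, by positivity, fun i n hn => ?_⟩
  have hn1 : (1 : ℝ) ≤ n := by exact_mod_cast hn
  have h1 : a i n ^ 8 ≤ C₁ * ((n : ℝ) * 1) ^ (1 : ℝ) * n := by
    refine le_trans ?_ (hC₁ i n hn)
    exact single_le_sum (f := fun j => a i j ^ 8) (fun j _ => by positivity) (mem_Icc.2 ⟨hn, le_rfl⟩)
  rw [Real.rpow_one, mul_one] at h1
  have hc := abs_nonneg C₁
  have hDx : 1 ≤ (|C₁| + 1) * n := by nlinarith
  have h2 : C₁ * n * n ≤ ((|C₁| + 1) * n) ^ 8 := by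
    have h3 : ((|C₁| + 1) * (n : ℝ)) ^ 2 ≤ ((|C₁| + 1) * n) ^ 8 := pow_le_pow_right₀ hDx (by norm_num)
    have h4 : C₁ * n * n ≤ |C₁| * n * n :=
      mul_le_mul_of_nonneg_right (mul_le_mul_of_nonneg_right (le_abs_self _) (by linarith)) (by linarith)
    have h5 : |C₁| * n * n ≤ ((|C₁| + 1) * (n : ℝ)) ^ 2 := by
      have h6 : 0 ≤ (n : ℝ) * n := by positivity
      nlinarith [mul_nonneg hc h6, mul_nonneg (mul_nonneg hc hc) h6]
    linarith
  have h7 : |a i n| ^ 8 ≤ ((|C₁| + 1) * n) ^ 8 := by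
    have e : |a i n| ^ 8 = a i n ^ 8 := (by decide : Even 8).pow_abs (a i n)
    rw [e]
    exact h1.trans h2
  exact (pow_le_pow_iff_left₀ (abs_nonneg _) (by linarith) (by norm_num)).1 h7

/-- the moment bounds at a height -/
theorem m8_one {ι : Type} {a : ι → ℕ → ℝ} (ha : Coef (fun _ => (1 : ℝ)) a) {ε : ℝ} (hε : 0 < ε) :
    ∃ K : ℝ, 0 ≤ K ∧ ∀ (i : ι) (Y : ℝ), 1 ≤ Y → M8 (K * Y ^ ε) (4 * Y) (a i) := by
  obtain ⟨C₁, h₁⟩ := ha.1 ε hε
  obtain ⟨C₂, h₂⟩ := ha.2 ε hε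
  refine ⟨(|C₁| + |C₂|) * 4 ^ ε, by positivity, fun i Y hY => ?_⟩
  have hpow : ∀ (C z w : ℝ), |C| ≤ |C₁| + |C₂| → 0 ≤ z → z ≤ 4 * Y → 0 ≤ w →
      C * z ^ ε * w ≤ (|C₁| + |C₂|) * 4 ^ ε * Y ^ ε * w := by
    intro C z w hC hz0 hz hw
    refine mul_le_mul_of_nonneg_right ?_ hw
    rw [mul_assoc, ← Real.mul_rpow (by norm_num) (by linarith)]
    refine mul_le_mul ((le_abs_self C).trans hC) (Real.rpow_le_rpow hz0 hz hε.le)
      (Real.rpow_nonneg hz0 _) (by positivity)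
  constructor
  · intro N hN
    rcases Nat.eq_zero_or_pos N with h0 | h0
    · subst h0
      simp
    · refine (h₁ i N h0).trans ?_
      exact hpow C₁ _ _ (by linarith [abs_nonneg C₂]) (by positivity) (by simpa using hN) (by positivity)
  · intro R S hRS
    rcases Nat.eq_zero_or_pos R with h0 | h0
    · subst h0
      simp
    rcases Nat.eq_zero_or_pos S with h3 | h3
    · subst h3
      simp
    refine (h₂ i R S h0 h3).trans ?_
    have hR : (1 : ℝ) ≤ R := by exact_mod_cast h0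
    have hS : (1 : ℝ) ≤ S := by exact_mod_cast h3
    refine hpow C₂ _ _ (by linarith [abs_nonneg C₁]) (by positivity) ?_ (by positivity)
    rw [mul_one]
    refine le_trans ?_ hRS
    apply mul_le_mul_of_nonneg_right _ (by linarith)
    nlinarith

/-- the norm of the coefficients -/
theorem nn_abs (a : ℕ → ℝ) (B Y : ℝ) (X : ℕ) (hB : 0 ≤ B) (hY : 1 ≤ Y) (h8 : M8 B (4 * Y) a) :
    nn X (fun n => if (n : ℝ) ≤ Y then |a n| else 0) ≤ (Nat.log 2 ⌊Y⌋₊ + 1 : ℕ) * (2 * (1 + B) * Y) := by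
  have h1 : M8 (1 + B) (4 * Y) (fun n => √|a n|) := by
    constructor
    · intro N hN
      have e1 : ∀ n ∈ Icc 1 N, √|a n| ^ 8 ≤ 1 + a n ^ 8 := by
        intro n _
        have e2 : √|a n| ^ 8 = a n ^ 4 := by
          have : √|a n| ^ 8 = (√|a n| ^ 2) ^ 4 := by ring
          rw [this, Real.sq_sqrt (abs_nonneg _), (by decide : Even 4).pow_abs]
        rw [e2]
        nlinarith [sq_nonneg (a n ^ 4 - 1), sq_nonneg (a n ^ 4)]
      refine (sum_le_sum e1).trans ?_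
      rw [sum_add_distrib, sum_const, Nat.card_Icc, Nat.add_sub_cancel, nsmul_eq_mul, mul_one]
      have := h8.1 N hN
      linarith
    · intro R S hRS
      have e1 : ∀ s ∈ (Icc 1 S).filter Squarefree, ∑ r ∈ Icc 1 R, √|a (r ^ 2 * s)| ^ 4 ≤
          R + ∑ r ∈ Icc 1 R, a (r ^ 2 * s) ^ 4 := by
        intro s _
        have e2 : ∀ r ∈ Icc 1 R, √|a (r ^ 2 * s)| ^ 4 ≤ 1 + a (r ^ 2 * s) ^ 4 := by
          intro r _
          have e2 : √|a (r ^ 2 * s)| ^ 4 = a (r ^ 2 * s) ^ 2 := by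
            have : √|a (r ^ 2 * s)| ^ 4 = (√|a (r ^ 2 * s)| ^ 2) ^ 2 := by ring
            rw [this, Real.sq_sqrt (abs_nonneg _), sq_abs]
          rw [e2]
          nlinarith [sq_nonneg (a (r ^ 2 * s) ^ 2 - 1), sq_nonneg (a (r ^ 2 * s) ^ 2)]
        refine (sum_le_sum e2).trans ?_
        rw [sum_add_distrib, sum_const, Nat.card_Icc, Nat.add_sub_cancel, nsmul_eq_mul, mul_one]
      refine (sum_le_sum e1).trans ?_
      rw [sum_add_distrib, sum_const, nsmul_eq_mul]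
      have e3 : (((Icc 1 S).filter Squarefree).card : ℝ) ≤ S := by
        have := card_filter_le (Icc 1 S) Squarefree
        rw [Nat.card_Icc, Nat.add_sub_cancel] at this
        exact_mod_cast this
      have e4 := h8.2 R S hRS
      have e5 : (((Icc 1 S).filter Squarefree).card : ℝ) * R ≤ S * R :=
        mul_le_mul_of_nonneg_right e3 (by positivity)
      linarith
  have h2 := Pool.Agent.Q162.L2.GMB.nn_sq (fun n => √|a n|) (1 + B) Y X (by linarith) hY h1
  refine le_trans (le_of_eq ?_) h2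
  congr 1
  funext n
  split_ifs
  · rw [abs_of_nonneg (Real.sqrt_nonneg _), Real.sq_sqrt (abs_nonneg _)]
  · norm_num

/-- the norm is monotone -/
theorem nn_mono (X : ℕ) (w v : ℕ → ℝ) (K : ℝ) (_hK : 0 ≤ K) (h : ∀ n, |w n| ≤ K * v n) (hv : ∀ n, 0 ≤ v n) :
    nn X w ≤ K ^ 2 * nn X v := by
  unfold nn
  rw [mul_sum]
  refine sum_le_sum fun s _ => ?_
  rw [← mul_pow]
  refine pow_le_pow_left₀ (sum_nonneg fun _ _ => abs_nonneg _) ?_ 2
  rw [mul_sum]
  refine sum_le_sum fun r _ => (h _).trans (le_of_eq ?_)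
  rw [abs_of_nonneg (hv _)]

/-- summability of the tails -/
theorem tail_summable (c δ : ℝ) (hc : 0 < c) (hδ : 0 < δ) :
    Summable fun n : ℕ => ((n + 1 : ℕ) : ℝ) * Real.exp (-(c * ((n + 1 : ℕ) : ℝ) ^ δ)) := by
  obtain ⟨m, hm⟩ := exists_nat_ge (3 / δ)
  have h1 : ∀ n : ℕ, ((n + 1 : ℕ) : ℝ) * Real.exp (-(c * ((n + 1 : ℕ) : ℝ) ^ δ)) ≤
      (m.factorial / c ^ m : ℝ) * (1 / ((n + 1 : ℕ) : ℝ) ^ 2) := by
    intro n
    set x : ℝ := ((n + 1 : ℕ) : ℝ) with hx
    have hx1 : 1 ≤ x := by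
      rw [hx]
      push_cast
      have : (0 : ℝ) ≤ n := by positivity
      linarith
    have hx0 : 0 < x := by linarith
    have h2 : (c * x ^ δ) ^ m / m.factorial ≤ Real.exp (c * x ^ δ) :=
      Real.pow_div_factorial_le_exp _ (by positivity) m
    have h3 : x ^ 3 ≤ (x ^ δ) ^ m := by
      rw [← Real.rpow_natCast, ← Real.rpow_natCast, ← Real.rpow_mul hx0.le]
      refine Real.rpow_le_rpow_of_exponent_le hx1 ?_
      have : 3 / δ * δ ≤ m * δ := mul_le_mul_of_nonneg_right hm hδ.le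
      rw [div_mul_cancel₀ _ hδ.ne'] at this
      push_cast
      linarith
    have hf : (0 : ℝ) < m.factorial := by positivity
    have h4 : c ^ m * x ^ 3 / m.factorial ≤ Real.exp (c * x ^ δ) := by
      refine le_trans ?_ h2
      rw [mul_pow]
      gcongr
    rw [Real.exp_neg]
    have h5 : (Real.exp (c * x ^ δ))⁻¹ ≤ (c ^ m * x ^ 3 / m.factorial)⁻¹ :=
      inv_anti₀ (by positivity) h4
    calc x * (Real.exp (c * x ^ δ))⁻¹ ≤ x * (c ^ m * x ^ 3 / m.factorial)⁻¹ :=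
          mul_le_mul_of_nonneg_left h5 hx0.le
      _ = (m.factorial / c ^ m : ℝ) * (1 / x ^ 2) := by
          field_simp
  refine Summable.of_nonneg_of_le (fun n => by positivity) h1 ?_
  refine Summable.mul_left _ ?_
  have h2 : Summable fun n : ℕ => 1 / (n : ℝ) ^ 2 := Real.summable_one_div_nat_pow.2 (by norm_num)
  exact (summable_nat_add_iff 1).2 h2

/-- the weight function changes slowly -/
theorem adm_lip {V V' : ℝ → ℝ} {C₀ c₀ : ℝ} (hc : 0 < c₀)
    (hV : ∀ u : ℝ, 0 < u → HasDerivAt V (V' u) u ∧ |V u| ≤ C₀ * Real.exp (-(c₀ * u)) ∧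
      |V' u| ≤ C₀ * Real.exp (-(c₀ * u)) / u) {u v : ℝ} (hu : 0 < u) (huv : u ≤ v) :
    |V v - V u| ≤ |C₀| / u * (v - u) := by
  have h1 := (convex_Icc u v).norm_image_sub_le_of_norm_hasDerivWithin_le (f := V) (f' := V')
    (C := |C₀| / u) (x := u) (y := v) (fun x hx => (hV x (hu.trans_le hx.1)).1.hasDerivWithinAt)
    (fun x hx => by
      have hx0 : 0 < x := hu.trans_le hx.1
      rw [Real.norm_eq_abs]
      refine (hV x hx0).2.2.trans ?_
      have h2 : C₀ * Real.exp (-(c₀ * x)) ≤ |C₀| := by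
        have h3 : Real.exp (-(c₀ * x)) ≤ 1 := Real.exp_le_one_iff.2 (by
          have := mul_pos hc hx0
          linarith)
        calc C₀ * Real.exp (-(c₀ * x)) ≤ |C₀| * Real.exp (-(c₀ * x)) :=
              mul_le_mul_of_nonneg_right (le_abs_self _) (Real.exp_pos _).le
          _ ≤ |C₀| * 1 := mul_le_mul_of_nonneg_left h3 (abs_nonneg _)
          _ = |C₀| := mul_one _
      calc C₀ * Real.exp (-(c₀ * x)) / x ≤ |C₀| / x := div_le_div_of_nonneg_right h2 hx0.le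
        _ ≤ |C₀| / u := div_le_div_of_nonneg_left (abs_nonneg _) hu hx.1)
    (Set.left_mem_Icc.2 huv) (Set.right_mem_Icc.2 huv)
  rw [Real.norm_eq_abs, Real.norm_eq_abs, abs_of_nonneg (by linarith : 0 ≤ v - u)] at h1
  exact h1

/-- `cos` or `sin` -/
noncomputable def ph (b : Bool) (θ : ℝ) : ℝ := if b then Real.cos θ else Real.sin θ

theorem ph_abs (b : Bool) (θ : ℝ) : |ph b θ| ≤ 1 := by
  unfold ph
  split_ifs
  · exact Real.abs_cos_le_one _
  · exact Real.abs_sin_le_one _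

theorem ph_lip (b : Bool) (θ θ' : ℝ) : |ph b θ - ph b θ'| ≤ |θ - θ'| := by
  unfold ph
  split_ifs
  · exact Real.abs_cos_sub_cos_le _ _
  · exact Real.abs_sin_sub_sin_le _ _

theorem ph_int (b : Bool) (n : ℕ) (x : ℝ) :
    ph b (2 * Real.pi * n * x) = ph b (2 * Real.pi * n * Int.fract x) := by
  have e1 : 2 * Real.pi * n * x = 2 * Real.pi * n * Int.fract x + ((n * ⌊x⌋ : ℤ) : ℝ) * (2 * Real.pi) := by
    have h1 := Int.floor_add_fract x
    push_cast
    calc 2 * Real.pi * n * x = 2 * Real.pi * n * ((⌊x⌋ : ℝ) + Int.fract x) := by rw [h1]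
      _ = _ := by ring
  unfold ph
  rw [e1]
  split_ifs
  · exact Real.cos_add_int_mul_two_pi _ _
  · exact Real.sin_add_int_mul_two_pi _ _

/-- the terms -/
noncomputable def tY (b : Bool) (a : ℕ → ℝ) (V : ℝ → ℝ) (x y : ℝ) (n : ℕ) : ℝ :=
  √y * (a n * V (n * y) * ph b (2 * Real.pi * n * x))

theorem uf_eq (b : Bool) (f a : ℕ → ℝ) (V : ℝ → ℝ) (x y : ℝ) :
    uf b f a V x y = ∑' n : ℕ, tY b a V x y (n + 1) * f (n + 1) := by
  unfold uf tY ph
  rw [← tsum_mul_left]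
  refine tsum_congr fun n => ?_
  push_cast
  ring

/-- change of the terms -/
theorem tY_lip {V V' : ℝ → ℝ} {C₀ c₀ : ℝ} (hc : 0 < c₀)
    (hV : ∀ u : ℝ, 0 < u → HasDerivAt V (V' u) u ∧ |V u| ≤ C₀ * Real.exp (-(c₀ * u)) ∧
      |V' u| ≤ C₀ * Real.exp (-(c₀ * u)) / u) (b : Bool) (a : ℕ → ℝ) (x x' y y' d : ℝ) (n : ℕ) (hn : 1 ≤ n)
    (hy : 0 < y) (hyy : y ≤ y') (hy1 : y' ≤ y + d) (hx : |x - x'| ≤ d) :
    |tY b a V x y n - tY b a V x' y' n| ≤
      |a n| * (|C₀| * (2 / √y + √y' * (2 * Real.pi * n)) * d) := by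
  have hn1 : (1 : ℝ) ≤ n := by exact_mod_cast hn
  have hd : 0 ≤ d := by linarith
  have hy' : 0 < y' := hy.trans_le hyy
  have hs : 0 < √y := Real.sqrt_pos.2 hy
  have hs' : 0 < √y' := Real.sqrt_pos.2 hy'
  have hVb : ∀ u, 0 < u → |V u| ≤ |C₀| := by
    intro u hu
    refine (hV u hu).2.1.trans ?_
    have h3 : Real.exp (-(c₀ * u)) ≤ 1 := Real.exp_le_one_iff.2 (by
      have := mul_pos hc hu
      linarith)
    calc C₀ * Real.exp (-(c₀ * u)) ≤ |C₀| * Real.exp (-(c₀ * u)) :=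
          mul_le_mul_of_nonneg_right (le_abs_self _) (Real.exp_pos _).le
      _ ≤ |C₀| * 1 := mul_le_mul_of_nonneg_left h3 (abs_nonneg _)
      _ = |C₀| := mul_one _
  have e1 : tY b a V x y n - tY b a V x' y' n = a n * (
      (√y * (V (n * y) - V (n * y')) * ph b (2 * Real.pi * n * x)) +
      ((√y - √y') * V (n * y') * ph b (2 * Real.pi * n * x)) +
      (√y' * V (n * y') * (ph b (2 * Real.pi * n * x) - ph b (2 * Real.pi * n * x')))) := by
    unfold tY
    ring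
  rw [e1, abs_mul]
  refine mul_le_mul_of_nonneg_left ?_ (abs_nonneg _)
  have h1 : |(√y - √y') * V (n * y') * ph b (2 * Real.pi * n * x)| ≤ d / √y * |C₀| * 1 := by
    rw [abs_mul, abs_mul]
    refine mul_le_mul (mul_le_mul ?_ (hVb _ (by positivity)) (abs_nonneg _) (by positivity)) (ph_abs _ _)
      (abs_nonneg _) (by positivity)
    rw [abs_sub_comm, abs_of_nonneg (sub_nonneg.2 (Real.sqrt_le_sqrt hyy))]
    rw [le_div_iff₀ hs]
    have h2 : (√y' - √y) * (√y' + √y) = y' - y := by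
      have := Real.sq_sqrt hy'.le
      have := Real.sq_sqrt hy.le
      nlinarith
    have h3 : 0 ≤ √y' - √y := sub_nonneg.2 (Real.sqrt_le_sqrt hyy)
    nlinarith
  have h2 : |√y * (V (n * y) - V (n * y')) * ph b (2 * Real.pi * n * x)| ≤ |C₀| * (d / √y) * 1 := by
    rw [abs_mul, abs_mul, abs_of_pos hs]
    refine mul_le_mul ?_ (ph_abs _ _) (abs_nonneg _) (by positivity)
    have h4 : |V (n * y) - V (n * y')| ≤ |C₀| / (n * y) * (n * y' - n * y) := by
      rw [abs_sub_comm]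
      exact adm_lip hc hV (by positivity) (mul_le_mul_of_nonneg_left hyy (by positivity))
    have h5 : |C₀| / (n * y) * (n * y' - n * y) ≤ |C₀| / y * d := by
      have h6 : |C₀| / (n * y) * (n * y' - n * y) = |C₀| / y * (y' - y) := by
        field_simp
      rw [h6]
      exact mul_le_mul_of_nonneg_left (by linarith) (by positivity)
    calc √y * |V (n * y) - V (n * y')| ≤ √y * (|C₀| / y * d) :=
          mul_le_mul_of_nonneg_left (h4.trans h5) hs.le
      _ = |C₀| * (d / √y) := by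
          have h7 : y = √y * √y := (Real.mul_self_sqrt hy.le).symm
          have h8 : √y * (|C₀| / (√y * √y) * d) = |C₀| * (d / √y) := by
            field_simp
          rw [← h7] at h8
          exact h8
  have h3 : |√y' * V (n * y') * (ph b (2 * Real.pi * n * x) - ph b (2 * Real.pi * n * x'))| ≤
      √y' * |C₀| * (2 * Real.pi * n * d) := by
    rw [abs_mul, abs_mul, abs_of_pos hs']
    refine mul_le_mul (mul_le_mul_of_nonneg_left (hVb _ (by positivity)) hs'.le) ?_ (abs_nonneg _) (by positivity)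
    refine (ph_lip _ _ _).trans ?_
    rw [← mul_sub, abs_mul, abs_of_nonneg (by positivity : 0 ≤ 2 * Real.pi * (n : ℝ))]
    exact mul_le_mul_of_nonneg_left hx (by positivity)
  refine (abs_add_three _ _ _).trans ?_
  have h9 : |C₀| * (2 / √y + √y' * (2 * Real.pi * n)) * d = |C₀| * (d / √y) * 1 + d / √y * |C₀| * 1 +
      √y' * |C₀| * (2 * Real.pi * n * d) := by ring
  rw [h9]
  exact add_le_add (add_le_add h2 h1) h3

/-- the size of the terms -/
theorem tY_le {V V' : ℝ → ℝ} {C₀ c₀ : ℝ}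
    (hV : ∀ u : ℝ, 0 < u → HasDerivAt V (V' u) u ∧ |V u| ≤ C₀ * Real.exp (-(c₀ * u)) ∧
      |V' u| ≤ C₀ * Real.exp (-(c₀ * u)) / u) (b : Bool) (a : ℕ → ℝ) (x y : ℝ) (n : ℕ) (hn : 1 ≤ n)
    (hy : 0 < y) : |tY b a V x y n| ≤ √y * |C₀| * |a n| * Real.exp (-(c₀ * (n * y))) := by
  have hn1 : (1 : ℝ) ≤ n := by exact_mod_cast hn
  unfold tY
  rw [abs_mul, abs_mul, abs_mul, abs_of_nonneg (Real.sqrt_nonneg y)]
  have h1 := (hV (n * y) (by positivity)).2.1
  have h2 : C₀ * Real.exp (-(c₀ * (n * y))) ≤ |C₀| * Real.exp (-(c₀ * (n * y))) :=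
    mul_le_mul_of_nonneg_right (le_abs_self _) (Real.exp_pos _).le
  calc √y * (|a n| * |V (n * y)| * |ph b (2 * Real.pi * n * x)|) ≤
        √y * (|a n| * (|C₀| * Real.exp (-(c₀ * (n * y)))) * 1) := by
        refine mul_le_mul_of_nonneg_left ?_ (Real.sqrt_nonneg _)
        refine mul_le_mul ?_ (ph_abs _ _) (abs_nonneg _) (by positivity)
        exact mul_le_mul_of_nonneg_left (h1.trans h2) (abs_nonneg _)
    _ = _ := by ring

end Pool.Agent.Q65.L2Y
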